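import Mathlib

/-!
Definitions for MP_de9001_an (equivalence relations on the integers with the synthesis property):
closed subalgebras of L^1 of the circle, Rudin classes, idempotents, synthesis property.
-/

open MeasureTheory AddCircle

namespace Pool.Agent.H87.Synth

noncomputable section

instance fact_two_pi : Fact (0 < 2 * Real.pi) := ⟨Real.two_pi_pos⟩

/-- The circle `ℝ / 2πℤ`. -/
abbrev Circ : Type := AddCircle (2 * Real.pi)

/-- The Banach space `L¹` of the circle with its normalised Haar measure `dx / 2π`. -/
abbrev L1 : Type := Lp ℂ 1 (haarAddCircle : Measure Circ)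

/-- `h` is the convolution `f * g`, that is `h x = ∫ f (x - y) g y dy / 2π` for almost all `x`. -/
def IsConv (f g h : L1) : Prop :=
  (h : Circ → ℂ) =ᵐ[haarAddCircle] fun x => ∫ y, f (x - y) * g y ∂haarAddCircle

/-- A closed subalgebra of `L¹`: a norm-closed complex linear subspace closed under convolution. -/
def IsClosedSubalgebra (A : Submodule ℂ L1) : Prop :=
  IsClosed (A : Set L1) ∧ ∀ f ∈ A, ∀ g ∈ A, ∀ h, IsConv f g h → h ∈ A

/-- The Rudin relation `r(A)`: all elements of `A` have the same Fourier coefficients at `m`
and at `n`. -/
def RudinRel (A : Submodule ℂ L1) (m n : ℤ) : Prop :=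
  ∀ f ∈ A, fourierCoeff (f : Circ → ℂ) m = fourierCoeff (f : Circ → ℂ) n

/-- `A` is generated by its idempotents: it is contained in every closed subalgebra that contains
all `e ∈ A` with `e * e = e` (so it is the smallest closed subalgebra containing them). -/
def GeneratedByIdempotents (A : Submodule ℂ L1) : Prop :=
  ∀ B : Submodule ℂ L1, IsClosedSubalgebra B → (∀ e ∈ A, IsConv e e e → e ∈ B) → A ≤ B

/-- The synthesis property of an equivalence relation on the integers: every closed subalgebra
with Rudin relation `r` is generated by its idempotents. -/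
def HasSynthesis (r : Setoid ℤ) : Prop :=
  ∀ A : Submodule ℂ L1, IsClosedSubalgebra A → (∀ m n, RudinRel A m n ↔ r m n) →
    GeneratedByIdempotents A

/-- The approximation property: every `f ∈ L¹` whose Fourier coefficients are constant on the
classes of `r` (and vanish on the infinite classes) is a limit in `L¹` of trigonometric
polynomials whose coefficients are constant on the classes. -/
def Approx (r : Setoid ℤ) : Prop :=
  ∀ f : L1, (∀ m n, r m n → fourierCoeff (f : Circ → ℂ) m = fourierCoeff (f : Circ → ℂ) n) →
    (∀ n, {m | r n m}.Infinite → fourierCoeff (f : Circ → ℂ) n = 0) →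
    ∀ ε : ℝ, 0 < ε → ∃ c : ℤ →₀ ℂ, (∀ m n, r m n → c m = c n) ∧
      ‖f - ∑ n ∈ c.support, c n • (fourierLp 1 n : L1)‖ < ε

end

end Pool.Agent.H87.Synth
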