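import Mathlib
import Pool.Agent.H87.Synth.Defs

/-!
Convolution on `L¹` of the circle, Fourier coefficients, multiplier bounds, Fejer kernels.
-/

open MeasureTheory AddCircle
open scoped Convolution

namespace Pool.Agent.H87.Synth

noncomputable section

/-- Fourier coefficient of an element of `L¹`. -/
def coeff (f : L1) (n : ℤ) : ℂ := fourierCoeff (f : Circ → ℂ) n

/-- The exponential `e^{inx}` as an element of `L¹`. -/
def ex (n : ℤ) : L1 := fourierLp 1 n

lemma coeFn_ex (n : ℤ) : (ex n : Circ → ℂ) =ᵐ[haarAddCircle] fourier n := coeFn_fourierLp 1 n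

lemma integrable_coe (f : L1) : Integrable (f : Circ → ℂ) haarAddCircle := L1.integrable_coeFn f

lemma norm_eq (f : L1) : ‖f‖ = ∫ x, ‖(f : Circ → ℂ) x‖ ∂haarAddCircle := L1.norm_eq_integral_norm f

lemma fourier_norm_apply (n : ℤ) (x : Circ) : ‖(fourier n x : ℂ)‖ = 1 := by
  rw [fourier_apply]; exact Circle.norm_coe _

lemma coeff_def (f : L1) (n : ℤ) :
    coeff f n = ∫ x, fourier (-n) x * (f : Circ → ℂ) x ∂haarAddCircle := by
  simp only [coeff, fourierCoeff, smul_eq_mul]

lemma coeff_add (f g : L1) (n : ℤ) : coeff (f + g) n = coeff f n + coeff g n := by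
  rw [coeff, fourierCoeff_congr_ae (Lp.coeFn_add f g)]
  exact congrFun (fourierCoeff.add (integrable_coe f) (integrable_coe g)) n

lemma coeff_smul (c : ℂ) (f : L1) (n : ℤ) : coeff (c • f) n = c * coeff f n := by
  rw [coeff, fourierCoeff_congr_ae (Lp.coeFn_smul c f)]
  exact fourierCoeff.const_smul _ c n

lemma norm_coeff_le (f : L1) (n : ℤ) : ‖coeff f n‖ ≤ ‖f‖ := by
  rw [coeff_def, norm_eq]
  refine (norm_integral_le_integral_norm _).trans (le_of_eq ?_)
  congr 1
  funext x
  rw [norm_mul, fourier_norm_apply, one_mul]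

/-- Fourier coefficient as a continuous linear functional. -/
def coeffL (n : ℤ) : L1 →L[ℂ] ℂ :=
  LinearMap.mkContinuous
    { toFun := fun f => coeff f n
      map_add' := fun f g => coeff_add f g n
      map_smul' := fun c f => by simp [coeff_smul] } 1
    (fun f => by simpa using norm_coeff_le f n)

lemma coeffL_apply (n : ℤ) (f : L1) : coeffL n f = coeff f n := rfl

lemma coeff_zero (n : ℤ) : coeff 0 n = 0 := by
  rw [← coeffL_apply, map_zero]

lemma coeff_sub (f g : L1) (n : ℤ) : coeff (f - g) n = coeff f n - coeff g n := by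
  simp only [← coeffL_apply, map_sub]

lemma coeff_sum {ι : Type*} (s : Finset ι) (f : ι → L1) (n : ℤ) :
    coeff (∑ i ∈ s, f i) n = ∑ i ∈ s, coeff (f i) n := by
  simp only [← coeffL_apply, map_sum]

lemma coeff_ex (m n : ℤ) : coeff (ex m) n = if m = n then 1 else 0 := by
  rw [coeff, fourierCoeff_congr_ae (coeFn_ex m), fourierCoeff_fourier]
  by_cases h : m = n
  · subst h; simp
  · simp [h, Ne.symm h]

lemma norm_ex (n : ℤ) : ‖ex n‖ = 1 := by
  rw [norm_eq]
  have : (fun x => ‖(ex n : Circ → ℂ) x‖) =ᵐ[haarAddCircle] fun _ => (1 : ℝ) := by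
    filter_upwards [coeFn_ex n] with x hx
    rw [hx, fourier_norm_apply]
  rw [integral_congr_ae this]
  simp

/-! ### Convolution -/

lemma integrable_conv (f g : L1) :
    Integrable (fun x => ∫ y, (f : Circ → ℂ) (x - y) * (g : Circ → ℂ) y ∂haarAddCircle)
      haarAddCircle := by
  have h := (integrable_coe f).integrable_convolution (ContinuousLinearMap.mul ℂ ℂ)
    (integrable_coe g)
  refine h.congr (Filter.Eventually.of_forall fun x => ?_)
  exact convolution_mul_swap

/-- The convolution of two elements of `L¹`. -/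
def conv (f g : L1) : L1 := (integrable_conv f g).toL1 _

lemma coeFn_conv (f g : L1) : (conv f g : Circ → ℂ) =ᵐ[haarAddCircle]
    fun x => ∫ y, (f : Circ → ℂ) (x - y) * (g : Circ → ℂ) y ∂haarAddCircle :=
  Integrable.coeFn_toL1 _

lemma coeFn_conv' (f g : L1) : (conv f g : Circ → ℂ) =ᵐ[haarAddCircle]
    ((f : Circ → ℂ) ⋆[ContinuousLinearMap.mul ℂ ℂ, haarAddCircle] (g : Circ → ℂ)) := by
  refine (coeFn_conv f g).trans (Filter.Eventually.of_forall fun x => ?_)
  exact convolution_mul_swap.symm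

lemma isConv_conv (f g : L1) : IsConv f g (conv f g) := coeFn_conv f g

lemma isConv_iff (f g h : L1) : IsConv f g h ↔ h = conv f g := by
  constructor
  · intro H
    apply Lp.ext
    exact H.trans (coeFn_conv f g).symm
  · rintro rfl; exact isConv_conv f g

lemma fourier_neg_add (n : ℤ) (x y : Circ) :
    (fourier (-n) (x + y) : ℂ) = fourier (-n) x * fourier (-n) y := by
  simp only [fourier_apply, smul_add, toCircle_add, Circle.coe_mul]

lemma coeff_conv (f g : L1) (n : ℤ) : coeff (conv f g) n = coeff f n * coeff g n := by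
  have hf : Integrable (fun x => fourier (-n) x * (f : Circ → ℂ) x) haarAddCircle := by
    simpa [smul_eq_mul] using (integrable_coe f).fourier_smul (-n)
  have hg : Integrable (fun x => fourier (-n) x * (g : Circ → ℂ) x) haarAddCircle := by
    simpa [smul_eq_mul] using (integrable_coe g).fourier_smul (-n)
  have h := integral_convolution (ContinuousLinearMap.mul ℂ ℂ) hf hg
  rw [coeff_def, coeff_def, coeff_def]
  rw [ContinuousLinearMap.mul_apply'] at h
  rw [← h]
  refine integral_congr_ae ?_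
  filter_upwards [coeFn_conv' f g] with x hx
  rw [hx, convolution_mul, convolution_mul, ← integral_const_mul]
  congr 1
  funext t
  have : (fourier (-n) x : ℂ) = fourier (-n) t * fourier (-n) (x - t) := by
    rw [← fourier_neg_add]; congr 1; abel
  rw [this]; ring

lemma norm_conv_le (f g : L1) : ‖conv f g‖ ≤ ‖f‖ * ‖g‖ := by
  have h := integral_convolution (ContinuousLinearMap.mul ℝ ℝ) (integrable_coe f).norm
    (integrable_coe g).norm (μ := haarAddCircle)
  rw [ContinuousLinearMap.mul_apply'] at h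
  rw [norm_eq, norm_eq f, norm_eq g, ← h]
  have hi := (integrable_coe f).norm.integrable_convolution (ContinuousLinearMap.mul ℝ ℝ)
    (integrable_coe g).norm
  refine integral_mono_ae (integrable_coe _).norm hi ?_
  filter_upwards [coeFn_conv' f g] with x hx
  rw [hx, convolution_mul, convolution_mul]
  refine (norm_integral_le_integral_norm _).trans (le_of_eq ?_)
  congr 1
  funext t
  rw [norm_mul]

/-! ### Trigonometric polynomials as kernels -/

/-- The operator `f ↦ Σ_{k ∈ s} w_k f^(k) e_k`. -/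
def mulOp (s : Finset ℤ) (w : ℤ → ℂ) (f : L1) : L1 := ∑ k ∈ s, (w k * coeff f k) • ex k

lemma conv_ex (f : L1) (n : ℤ) : conv f (ex n) = coeff f n • ex n := by
  apply Lp.ext
  have h1 := coeFn_conv f (ex n)
  have h2 := Lp.coeFn_smul (coeff f n) (ex n)
  filter_upwards [h1, h2, coeFn_ex n] with x hx1 hx2 hx3
  rw [hx1, hx2, Pi.smul_apply, hx3, coeff_def, smul_eq_mul]
  have : ∫ y, (f : Circ → ℂ) (x - y) * (ex n : Circ → ℂ) y ∂haarAddCircle
      = ∫ y, (f : Circ → ℂ) (x - y) * fourier n y ∂haarAddCircle := by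
    refine integral_congr_ae ?_
    filter_upwards [coeFn_ex n] with y hy
    rw [hy]
  rw [this, ← integral_sub_left_eq_self (fun y => (f : Circ → ℂ) (x - y) * fourier n y)
    haarAddCircle x, ← integral_mul_const]
  congr 1
  funext y
  have e1 : x - (x - y) = y := by abel
  have e2 : (fourier n (x - y) : ℂ) = fourier (-n) y * fourier n x := by
    simp only [fourier_apply]
    rw [sub_eq_add_neg, smul_add, toCircle_add, Circle.coe_mul, smul_neg, neg_smul, mul_comm]
  rw [e1, e2]; ring

lemma conv_add_right (f g h : L1) : conv f (g + h) = conv f g + conv f h := by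
  apply Lp.ext
  have h1 := coeFn_conv' f (g + h)
  have h2 := coeFn_conv' f g
  have h3 := coeFn_conv' f h
  have h4 := Lp.coeFn_add (conv f g) (conv f h)
  have e1 := (integrable_coe f).ae_convolution_exists (ContinuousLinearMap.mul ℂ ℂ)
    (integrable_coe g)
  have e2 := (integrable_coe f).ae_convolution_exists (ContinuousLinearMap.mul ℂ ℂ)
    (integrable_coe h)
  filter_upwards [h1, h2, h3, h4, e1, e2] with x hx1 hx2 hx3 hx4 he1 he2
  rw [hx1, hx4, Pi.add_apply, hx2, hx3, ← he1.distrib_add he2]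
  have := convolution_congr (ContinuousLinearMap.mul ℂ ℂ) (μ := haarAddCircle)
    (Filter.EventuallyEq.refl _ (f : Circ → ℂ)) (Lp.coeFn_add g h)
  exact congrFun this x

lemma conv_smul_right (f g : L1) (c : ℂ) : conv f (c • g) = c • conv f g := by
  apply Lp.ext
  have h1 := coeFn_conv' f (c • g)
  have h2 := coeFn_conv' f g
  have h4 := Lp.coeFn_smul c (conv f g)
  filter_upwards [h1, h2, h4] with x hx1 hx2 hx4
  rw [hx1, hx4, Pi.smul_apply, hx2]
  have := convolution_congr (ContinuousLinearMap.mul ℂ ℂ) (μ := haarAddCircle)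
    (Filter.EventuallyEq.refl _ (f : Circ → ℂ)) (Lp.coeFn_smul c g)
  rw [congrFun this x, convolution_mul, convolution_mul, smul_eq_mul, ← integral_const_mul]
  congr 1
  funext t
  simp only [Pi.smul_apply, smul_eq_mul]; ring

lemma conv_sum_right {ι : Type*} (f : L1) (s : Finset ι) (g : ι → L1) :
    conv f (∑ i ∈ s, g i) = ∑ i ∈ s, conv f (g i) := by
  classical
  induction s using Finset.induction_on with
  | empty =>
    simp only [Finset.sum_empty]
    have := conv_smul_right f 0 0
    simpa using this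
  | insert a s ha ih => rw [Finset.sum_insert ha, Finset.sum_insert ha, conv_add_right, ih]

lemma mulOp_eq_conv (s : Finset ℤ) (w : ℤ → ℂ) (f : L1) :
    mulOp s w f = conv f (∑ k ∈ s, w k • ex k) := by
  rw [conv_sum_right, mulOp]
  refine Finset.sum_congr rfl fun k _ => ?_
  rw [conv_smul_right, conv_ex, smul_smul]

/-- Multiplier bound: the norm of the multiplier operator is at most the `L¹` norm of the
kernel. -/
lemma norm_mulOp_le (s : Finset ℤ) (w : ℤ → ℂ) (f : L1) :
    ‖mulOp s w f‖ ≤ ‖∑ k ∈ s, w k • ex k‖ * ‖f‖ := by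
  have h := norm_conv_le f (∑ k ∈ s, w k • ex k)
  rw [mulOp_eq_conv]
  linarith [mul_comm ‖f‖ ‖(∑ k ∈ s, w k • ex k : L1)‖]

lemma coeff_mulOp (s : Finset ℤ) (w : ℤ → ℂ) (f : L1) (n : ℤ) :
    coeff (mulOp s w f) n = if n ∈ s then w n * coeff f n else 0 := by
  rw [mulOp, coeff_sum]
  simp only [coeff_smul, coeff_ex]
  simp only [mul_ite, mul_one, mul_zero, Finset.sum_ite_eq']

/-- Value of a trigonometric polynomial. -/
lemma coeFn_sum_ex (s : Finset ℤ) (w : ℤ → ℂ) :
    ((∑ k ∈ s, w k • ex k : L1) : Circ → ℂ) =ᵐ[haarAddCircle]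
      fun x => ∑ k ∈ s, w k * fourier k x := by
  classical
  induction s using Finset.induction_on with
  | empty =>
    simp only [Finset.sum_empty]
    exact Lp.coeFn_zero _ _ _
  | insert a s ha ih =>
    rw [Finset.sum_insert ha]
    filter_upwards [Lp.coeFn_add (w a • ex a) (∑ k ∈ s, w k • ex k), ih,
      Lp.coeFn_smul (w a) (ex a), coeFn_ex a] with x h1 h2 h3 h4
    rw [h1, Pi.add_apply, h2, h3, Pi.smul_apply, h4, Finset.sum_insert ha, smul_eq_mul]

lemma norm_sum_ex (s : Finset ℤ) (w : ℤ → ℂ) :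
    ‖(∑ k ∈ s, w k • ex k : L1)‖ =
      ∫ x : Circ, ‖∑ k ∈ s, w k * (fourier k x : ℂ)‖ ∂haarAddCircle := by
  rw [norm_eq]
  refine integral_congr_ae ?_
  filter_upwards [coeFn_sum_ex s w] with x hx
  rw [hx]

/-! ### Fejer kernels -/

/-- The Fejer kernel of order `N`. -/
def fejerK (N : ℕ) : L1 :=
  (1 / ((N : ℂ) + 1)) • ∑ a ∈ Finset.range (N + 1), ∑ b ∈ Finset.range (N + 1),
    ex ((a : ℤ) - b)

lemma coeff_fejerK (N : ℕ) (n : ℤ) :
    coeff (fejerK N) n = ((max 0 (1 - |(n : ℝ)| / (N + 1)) : ℝ) : ℂ) := by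
  have hN : ((N : ℝ) + 1) ≠ 0 := by positivity
  rw [fejerK, coeff_smul, coeff_sum]
  simp only [coeff_sum, coeff_ex]
  have hcount : ∀ a ∈ Finset.range (N + 1),
      (∑ b ∈ Finset.range (N + 1), if ((a : ℤ) - b = n) then (1 : ℂ) else 0)
        = if (0 ≤ (a : ℤ) - n ∧ (a : ℤ) - n ≤ N) then 1 else 0 := by
    intro a _
    by_cases h : (0 ≤ (a : ℤ) - n ∧ (a : ℤ) - n ≤ N)
    · rw [if_pos h]
      have hb : ∀ b ∈ Finset.range (N + 1), (if ((a : ℤ) - b = n) then (1 : ℂ) else 0)
          = if b = ((a : ℤ) - n).toNat then 1 else 0 := by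
        intro b _
        by_cases hb : (a : ℤ) - b = n
        · rw [if_pos hb, if_pos]; omega
        · rw [if_neg hb, if_neg]; omega
      rw [Finset.sum_congr rfl hb, Finset.sum_ite_eq', if_pos]
      rw [Finset.mem_range]; omega
    · rw [if_neg h]
      refine Finset.sum_eq_zero fun b hb => ?_
      rw [Finset.mem_range] at hb
      rw [if_neg]; omega
  rw [Finset.sum_congr rfl hcount, Finset.sum_boole]
  have hcard : ((Finset.range (N + 1)).filter
      (fun a : ℕ => 0 ≤ (a : ℤ) - n ∧ (a : ℤ) - n ≤ N)).card = (N + 1 - n.natAbs) := by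
    rcases le_or_gt 0 n with h0 | h0
    · have : (Finset.range (N + 1)).filter
          (fun a : ℕ => 0 ≤ (a : ℤ) - n ∧ (a : ℤ) - n ≤ N) = Finset.Ico n.natAbs (N + 1) := by
        ext a; simp only [Finset.mem_filter, Finset.mem_range, Finset.mem_Ico]; omega
      rw [this, Nat.card_Ico]
    · have : (Finset.range (N + 1)).filter
          (fun a : ℕ => 0 ≤ (a : ℤ) - n ∧ (a : ℤ) - n ≤ N)
            = Finset.range (N + 1 - n.natAbs) := by
        ext a; simp only [Finset.mem_filter, Finset.mem_range]; omega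
      rw [this, Finset.card_range]
  rw [hcard]
  have habs : |(n : ℝ)| = (n.natAbs : ℝ) := by rw [Nat.cast_natAbs, Int.cast_abs]
  rw [habs]
  rcases le_or_gt n.natAbs (N + 1) with h | h
  · have h' : (n.natAbs : ℝ) ≤ N + 1 := by exact_mod_cast h
    rw [max_eq_right (by rw [sub_nonneg, div_le_one (by positivity)]; exact h'),
      Nat.cast_sub h]
    have hN' : ((N : ℂ) + 1) ≠ 0 := by exact_mod_cast hN
    push_cast
    field_simp
  · have h' : (N : ℝ) + 1 ≤ n.natAbs := by exact_mod_cast h.le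
    rw [max_eq_left (by rw [sub_nonpos, one_le_div (by positivity)]; exact h'),
      Nat.sub_eq_zero_of_le h.le]
    simp

lemma coeFn_fejerK (N : ℕ) : (fejerK N : Circ → ℂ) =ᵐ[haarAddCircle]
    fun x => (((1 / ((N : ℝ) + 1)) * ‖∑ a ∈ Finset.range (N + 1), (fourier (a : ℤ) x : ℂ)‖ ^ 2
      : ℝ) : ℂ) := by
  have h1 : ∀ᵐ x ∂(haarAddCircle : Measure Circ), ∀ n : ℤ,
      (ex n : Circ → ℂ) x = fourier n x := by
    rw [ae_all_iff]; intro n; exact coeFn_ex n
  have h2 := Lp.coeFn_smul (1 / ((N : ℂ) + 1)) (∑ a ∈ Finset.range (N + 1),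
    ∑ b ∈ Finset.range (N + 1), ex ((a : ℤ) - b))
  have h3 : ((∑ a ∈ Finset.range (N + 1), ∑ b ∈ Finset.range (N + 1), ex ((a : ℤ) - b) : L1)
      : Circ → ℂ) =ᵐ[haarAddCircle] fun x => ∑ a ∈ Finset.range (N + 1),
        ∑ b ∈ Finset.range (N + 1), (ex ((a : ℤ) - b) : Circ → ℂ) x := by
    rw [← Finset.sum_product']
    refine (Lp.coeFn_finsetSum _ _).trans ?_
    refine Filter.Eventually.of_forall fun x => ?_
    simp only [Finset.sum_apply]
    exact Finset.sum_product' (Finset.range (N + 1)) (Finset.range (N + 1))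
      (fun a b => (ex ((a : ℤ) - b) : Circ → ℂ) x)
  filter_upwards [h1, h2, h3] with x hx1 hx2 hx3
  rw [fejerK, hx2, Pi.smul_apply, hx3, smul_eq_mul]
  push_cast
  congr 1
  rw [← Complex.conj_mul', map_sum, Finset.sum_mul_sum, Finset.sum_comm]
  refine Finset.sum_congr rfl fun a _ => Finset.sum_congr rfl fun b _ => ?_
  rw [hx1, ← fourier_neg, ← fourier_add]
  congr 2
  ring

lemma norm_fejerK (N : ℕ) : ‖fejerK N‖ = 1 := by
  have h0 : coeff (fejerK N) 0 = 1 := by
    rw [coeff_fejerK]; simp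
  have h1 : coeff (fejerK N) 0 = ((‖fejerK N‖ : ℝ) : ℂ) := by
    rw [coeff_def, norm_eq]
    refine Eq.trans ?_ (integral_ofReal (𝕜 := ℂ))
    refine integral_congr_ae ?_
    filter_upwards [coeFn_fejerK N] with x hx
    rw [hx, neg_zero, fourier_zero, one_mul, Complex.norm_real, Real.norm_of_nonneg (by positivity)]
    rfl
  rw [h0] at h1
  exact_mod_cast h1.symm

/-- Fejer means of `f`. -/
def fejer (N : ℕ) (f : L1) : L1 := conv f (fejerK N)

lemma coeff_fejer (N : ℕ) (f : L1) (n : ℤ) :
    coeff (fejer N f) n = coeff f n * ((max 0 (1 - |(n : ℝ)| / (N + 1)) : ℝ) : ℂ) := by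
  rw [fejer, coeff_conv, coeff_fejerK]

lemma norm_fejer_le (N : ℕ) (f : L1) : ‖fejer N f‖ ≤ ‖f‖ := by
  have := norm_conv_le f (fejerK N)
  rwa [norm_fejerK, mul_one] at this

lemma fejer_eq (N : ℕ) (f : L1) : fejer N f =
    (1 / ((N : ℂ) + 1)) • ∑ a ∈ Finset.range (N + 1), ∑ b ∈ Finset.range (N + 1),
      coeff f ((a : ℤ) - b) • ex ((a : ℤ) - b) := by
  rw [fejer, fejerK, conv_smul_right, conv_sum_right]
  congr 1
  refine Finset.sum_congr rfl fun a _ => ?_
  rw [conv_sum_right]
  refine Finset.sum_congr rfl fun b _ => ?_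
  rw [conv_ex]

lemma fejer_add (N : ℕ) (f g : L1) : fejer N (f + g) = fejer N f + fejer N g := by
  simp only [fejer_eq, coeff_add, add_smul, Finset.sum_add_distrib, smul_add]

lemma fejer_smul (N : ℕ) (c : ℂ) (f : L1) : fejer N (c • f) = c • fejer N f := by
  have h : ∀ z : ℤ, (c * coeff f z) • ex z = c • (coeff f z • ex z) := fun z => mul_smul _ _ _
  simp only [fejer_eq, coeff_smul, h, ← Finset.smul_sum]
  rw [smul_comm]

lemma fejer_sub (N : ℕ) (f g : L1) : fejer N (f - g) = fejer N f - fejer N g := by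
  have h := fejer_add N f ((-1 : ℂ) • g)
  rw [fejer_smul] at h
  simpa [sub_eq_add_neg] using h

lemma fejer_ex (N : ℕ) (n : ℤ) :
    fejer N (ex n) = ((max 0 (1 - |(n : ℝ)| / (N + 1)) : ℝ) : ℂ) • ex n := by
  have : fejer N (ex n) = (coeff (fejerK N) n) • ex n := by
    rw [fejer_eq, fejerK, coeff_smul, mul_smul]
    congr 1
    rw [coeff_sum, Finset.sum_smul]
    refine Finset.sum_congr rfl fun a _ => ?_
    rw [coeff_sum, Finset.sum_smul]
    refine Finset.sum_congr rfl fun b _ => ?_
    rw [coeff_ex, coeff_ex]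
    by_cases h : n = (a : ℤ) - b
    · rw [if_pos h, if_pos h.symm, ← h]
    · rw [if_neg h, if_neg (Ne.symm h), zero_smul, zero_smul]
  rw [this, coeff_fejerK]

lemma dense_span_ex (f : L1) (ε : ℝ) (hε : 0 < ε) :
    ∃ p ∈ Submodule.span ℂ (Set.range ex), ‖f - p‖ < ε := by
  have h : (Submodule.span ℂ (Set.range ex)).topologicalClosure = ⊤ :=
    span_fourierLp_closure_eq_top (T := 2 * Real.pi) (p := 1) (by simp)
  have hf : f ∈ (Submodule.span ℂ (Set.range ex)).topologicalClosure := by rw [h]; trivial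
  have hf' : f ∈ closure ((Submodule.span ℂ (Set.range ex) : Submodule ℂ L1) : Set L1) := hf
  rw [Metric.mem_closure_iff] at hf'
  obtain ⟨p, hp, hd⟩ := hf' ε hε
  exact ⟨p, hp, by rwa [dist_eq_norm] at hd⟩

lemma tendsto_fejer_ex (n : ℤ) :
    Filter.Tendsto (fun N : ℕ => fejer N (ex n)) Filter.atTop (nhds (ex n)) := by
  simp only [fejer_ex]
  have h1 : Filter.Tendsto (fun N : ℕ => max 0 (1 - |(n : ℝ)| / ((N : ℝ) + 1)))
      Filter.atTop (nhds (max 0 (1 - 0))) := by
    refine Filter.Tendsto.max tendsto_const_nhds (Filter.Tendsto.sub tendsto_const_nhds ?_)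
    exact Filter.Tendsto.div_atTop tendsto_const_nhds
      (Filter.tendsto_atTop_add_const_right _ _ tendsto_natCast_atTop_atTop)
  have h2 : Filter.Tendsto (fun N : ℕ => ((max 0 (1 - |(n : ℝ)| / ((N : ℝ) + 1)) : ℝ) : ℂ))
      Filter.atTop (nhds 1) := by
    have := (Complex.continuous_ofReal.tendsto _).comp h1
    simp only [sub_zero, zero_le_one, sup_of_le_right, Complex.ofReal_one] at this
    exact this
  simpa using h2.smul (tendsto_const_nhds (x := ex n))

/-- Fejer means converge in `L¹`. -/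
lemma tendsto_fejer (f : L1) :
    Filter.Tendsto (fun N : ℕ => fejer N f) Filter.atTop (nhds f) := by
  have hspan : ∀ p ∈ Submodule.span ℂ (Set.range ex),
      Filter.Tendsto (fun N : ℕ => fejer N p) Filter.atTop (nhds p) := by
    intro p hp
    induction hp using Submodule.span_induction with
    | mem x hx => obtain ⟨n, rfl⟩ := hx; exact tendsto_fejer_ex n
    | zero =>
      have : ∀ N, fejer N 0 = 0 := fun N => by
        have := fejer_smul N 0 0
        simpa using this
      simp only [this]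
      exact tendsto_const_nhds
    | add x y _ _ hx hy => simp only [fejer_add]; exact hx.add hy
    | smul a x _ hx => simp only [fejer_smul]; exact hx.const_smul a
  rw [Metric.tendsto_atTop]
  intro ε hε
  obtain ⟨p, hp, hfp⟩ := dense_span_ex f (ε / 3) (by positivity)
  obtain ⟨N₀, hN₀⟩ := Metric.tendsto_atTop.1 (hspan p hp) (ε / 3) (by positivity)
  refine ⟨N₀, fun N hN => ?_⟩
  have h1 := hN₀ N hN
  rw [dist_eq_norm] at h1 ⊢
  have h2 : ‖fejer N f - fejer N p‖ ≤ ‖f - p‖ := by
    rw [← fejer_sub]; exact norm_fejer_le _ _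
  have h3 : fejer N f - f = (fejer N f - fejer N p) + (fejer N p - p) - (f - p) := by abel
  rw [h3]
  calc ‖(fejer N f - fejer N p) + (fejer N p - p) - (f - p)‖
      ≤ ‖(fejer N f - fejer N p) + (fejer N p - p)‖ + ‖f - p‖ := norm_sub_le _ _
    _ ≤ ‖fejer N f - fejer N p‖ + ‖fejer N p - p‖ + ‖f - p‖ := by gcongr; exact norm_add_le _ _
    _ < ε := by linarith

/-- Uniqueness of Fourier coefficients. -/
lemma ext_coeff {f g : L1} (h : ∀ n, coeff f n = coeff g n) : f = g := by
  have h0 : ∀ N, fejer N (f - g) = 0 := by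
    intro N
    rw [fejer_eq]
    simp [coeff_sub, h]
  have := tendsto_fejer (f - g)
  simp only [h0] at this
  have := tendsto_nhds_unique this tendsto_const_nhds
  exact sub_eq_zero.1 this

/-- The Fejer mean as a multiplier operator. -/
lemma fejer_eq_mulOp (N : ℕ) (f : L1) : fejer N f =
    mulOp (Finset.Icc (-(N : ℤ)) N) (fun n => ((1 - |(n : ℝ)| / (N + 1) : ℝ) : ℂ)) f := by
  apply ext_coeff
  intro n
  rw [coeff_fejer, coeff_mulOp]
  have habs : |(n : ℝ)| = (n.natAbs : ℝ) := by rw [Nat.cast_natAbs, Int.cast_abs]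
  by_cases hn : n ∈ Finset.Icc (-(N : ℤ)) N
  · rw [if_pos hn, max_eq_right, mul_comm]
    rw [sub_nonneg, div_le_one (by positivity), habs]
    rw [Finset.mem_Icc] at hn
    have : n.natAbs ≤ N + 1 := by omega
    exact_mod_cast this
  · rw [if_neg hn, max_eq_left]
    · simp
    rw [sub_nonpos, one_le_div (by positivity), habs]
    rw [Finset.mem_Icc] at hn
    have : N + 1 ≤ n.natAbs := by omega
    exact_mod_cast this

end

end Pool.Agent.H87.Synth
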