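import Mathlib
import Pool.Agent.H87.Synth.Defs
import Pool.Agent.H87.Synth.Conv

/-!
Every finite Rudin class `S` (other than the zero class) of a closed subalgebra `A` of `L¹`
satisfies `e_S ∈ A`; hence the approximation property implies the synthesis property.
-/

open MeasureTheory AddCircle

namespace Pool.Agent.H87.Synth

noncomputable section

/-- The idempotent `e_S = Σ_{n ∈ S} e^{inx}`. -/
def eS (S : Finset ℤ) : L1 := ∑ k ∈ S, ex k

lemma coeff_eS (S : Finset ℤ) (n : ℤ) : coeff (eS S) n = if n ∈ S then 1 else 0 := by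
  rw [eS, coeff_sum]
  simp only [coeff_ex, Finset.sum_ite_eq']

lemma isConv_eS (S : Finset ℤ) : IsConv (eS S) (eS S) (eS S) := by
  rw [isConv_iff]
  apply ext_coeff
  intro n
  rw [coeff_conv, coeff_eS]
  split_ifs <;> simp

lemma finite_coeff_of_span {p : L1} (hp : p ∈ Submodule.span ℂ (Set.range ex)) :
    {n | coeff p n ≠ 0}.Finite := by
  induction hp using Submodule.span_induction with
  | mem x hx =>
    obtain ⟨m, rfl⟩ := hx
    refine (Set.finite_singleton m).subset fun n hn => ?_
    by_contra h
    exact hn (by rw [coeff_ex, if_neg]; exact fun h' => h (by simp [h']))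
  | zero => simp [coeff_zero]
  | add x y _ _ hx hy =>
    refine (hx.union hy).subset fun n hn => ?_
    by_contra h
    simp only [Set.mem_union, Set.mem_ofPred_eq, not_or, not_not] at h
    exact hn (by rw [coeff_add, h.1, h.2, add_zero])
  | smul a x _ hx =>
    refine hx.subset fun n hn => ?_
    by_contra h
    simp only [Set.mem_ofPred_eq, not_not] at h
    exact hn (by rw [coeff_smul, h, mul_zero])

lemma IsClosedSubalgebra.conv_mem {A : Submodule ℂ L1} (hA : IsClosedSubalgebra A) {f g : L1}
    (hf : f ∈ A) (hg : g ∈ A) : conv f g ∈ A := hA.2 f hf g hg _ (isConv_conv f g)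

/-- Every finite nonzero Rudin class gives an idempotent of the algebra. -/
theorem eS_mem {A : Submodule ℂ L1} (hA : IsClosedSubalgebra A) (S : Finset ℤ) (n₀ : ℤ)
    (hn₀ : n₀ ∈ S) (hS : ∀ n, n ∈ S ↔ RudinRel A n₀ n) (g : L1) (hg : g ∈ A)
    (hg0 : coeff g n₀ ≠ 0) : eS S ∈ A := by
  classical
  -- normalise
  obtain ⟨f, hfA, hf1⟩ : ∃ f ∈ A, coeff f n₀ = 1 := by
    refine ⟨(coeff g n₀)⁻¹ • g, A.smul_mem _ hg, ?_⟩
    rw [coeff_smul, inv_mul_cancel₀ hg0]
  have hconst : ∀ h ∈ A, ∀ k ∈ S, coeff h k = coeff h n₀ := by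
    intro h hh k hk
    exact ((hS k).1 hk h hh).symm
  -- separate finitely many points
  have hsep : ∀ T : Finset ℤ, (∀ n ∈ T, n ∉ S) → ∃ F ∈ A, coeff F n₀ = 1 ∧
      ∀ n ∈ T, coeff F n = 0 := by
    intro T
    induction T using Finset.induction_on with
    | empty => intro _; exact ⟨f, hfA, hf1, by simp⟩
    | insert a T ha ih =>
      intro hT
      obtain ⟨F, hFA, hF1, hF0⟩ := ih fun n hn => hT n (Finset.mem_insert_of_mem hn)
      have haS : ¬ RudinRel A n₀ a := fun h => hT a (Finset.mem_insert_self _ _) ((hS a).2 h)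
      rw [RudinRel] at haS
      push Not at haS
      obtain ⟨h, hh, hne⟩ := haS
      have hne' : coeff h n₀ - coeff h a ≠ 0 := sub_ne_zero.2 hne
      refine ⟨conv F ((coeff h n₀ - coeff h a)⁻¹ • (conv h f - coeff h a • f)), ?_, ?_, ?_⟩
      · exact hA.conv_mem hFA (A.smul_mem _ (A.sub_mem (hA.conv_mem hh hfA) (A.smul_mem _ hfA)))
      · rw [coeff_conv, hF1, coeff_smul, coeff_sub, coeff_conv, coeff_smul, hf1, mul_one, mul_one,
          one_mul, inv_mul_cancel₀ hne']
      · intro n hn
        rw [Finset.mem_insert] at hn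
        rcases hn with rfl | hn
        · rw [coeff_conv, coeff_smul, coeff_sub, coeff_conv, coeff_smul, sub_self, mul_zero,
            mul_zero]
        · rw [coeff_conv, hF0 n hn, zero_mul]
  obtain ⟨p, hp, hfp⟩ := dense_span_ex f (1 / 2) (by norm_num)
  have hfin := finite_coeff_of_span hp
  obtain ⟨F, hFA, hF1, hF0⟩ := hsep (hfin.toFinset \ S) (by
    intro n hn; exact (Finset.mem_sdiff.1 hn).2)
  -- iterates
  let H : ℕ → L1 := fun m => Nat.rec F (fun _ h => conv h f) m
  have Hs : ∀ m, H (m + 1) = conv (H m) f := fun m => rfl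
  have H0 : H 0 = F := rfl
  have HA : ∀ m, H m ∈ A := by
    intro m
    induction m with
    | zero => exact hFA
    | succ m ih => rw [Hs]; exact hA.conv_mem ih hfA
  have Hc1 : ∀ m, coeff (H m) n₀ = 1 := by
    intro m
    induction m with
    | zero => exact hF1
    | succ m ih => rw [Hs, coeff_conv, ih, hf1, mul_one]
  have HcS : ∀ m, ∀ k ∈ S, coeff (H m) k = 1 := fun m k hk => by
    rw [hconst _ (HA m) k hk, Hc1]
  have Hc0 : ∀ m, ∀ n, coeff p n ≠ 0 → n ∉ S → coeff (H m) n = 0 := by
    intro m n hn hnS
    induction m with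
    | zero => exact hF0 n (by simp [hn, hnS])
    | succ m ih => rw [Hs, coeff_conv, ih, zero_mul]
  have hstep : ∀ m, H (m + 1) - eS S = conv (H m - eS S) (f - p) := by
    intro m
    apply ext_coeff
    intro n
    rw [coeff_sub, Hs, coeff_conv, coeff_conv, coeff_sub, coeff_sub, coeff_eS]
    by_cases hn : n ∈ S
    · rw [if_pos hn, HcS m n hn, hconst f hfA n hn, hf1]; ring
    · rw [if_neg hn]
      by_cases hpn : coeff p n = 0
      · rw [hpn]; ring
      · rw [Hc0 m n hpn hn]; ring
  have hbound : ∀ m, ‖H m - eS S‖ ≤ ‖F - eS S‖ * (1 / 2) ^ m := by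
    intro m
    induction m with
    | zero => simp [H0]
    | succ m ih =>
      rw [hstep]
      calc ‖conv (H m - eS S) (f - p)‖ ≤ ‖H m - eS S‖ * ‖f - p‖ := norm_conv_le _ _
        _ ≤ (‖F - eS S‖ * (1 / 2) ^ m) * (1 / 2) := by gcongr
        _ = _ := by ring
  have htend : Filter.Tendsto H Filter.atTop (nhds (eS S)) := by
    rw [tendsto_iff_norm_sub_tendsto_zero]
    refine squeeze_zero (fun _ => norm_nonneg _) hbound ?_
    have := (tendsto_pow_atTop_nhds_zero_of_lt_one (by norm_num : (0:ℝ) ≤ 1 / 2)
      (by norm_num : (1:ℝ) / 2 < 1)).const_mul ‖F - eS S‖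
    simpa using this
  exact hA.1.mem_of_tendsto htend (Filter.Eventually.of_forall HA)

/-- Riemann-Lebesgue, in the form needed: coefficients of `f` constant on an infinite set
vanish there. -/
lemma coeff_eq_zero_of_infinite (f : L1) (n : ℤ) (s : Set ℤ) (hs : s.Infinite)
    (h : ∀ m ∈ s, coeff f n = coeff f m) : coeff f n = 0 := by
  by_contra hne
  have hpos : 0 < ‖coeff f n‖ := norm_pos_iff.2 hne
  obtain ⟨p, hp, hfp⟩ := dense_span_ex f ‖coeff f n‖ hpos
  obtain ⟨m, hm, hpm⟩ := hs.exists_notMem_finite (finite_coeff_of_span hp)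
  simp only [Set.mem_ofPred_eq, not_not] at hpm
  have h1 := norm_coeff_le (f - p) m
  rw [coeff_sub, hpm, sub_zero, ← h m hm] at h1
  linarith

lemma coeff_linComb (c : ℤ →₀ ℂ) (n : ℤ) : coeff (Finsupp.linearCombination ℂ ex c) n = c n := by
  rw [Finsupp.linearCombination_apply, Finsupp.sum, coeff_sum]
  simp only [coeff_smul, coeff_ex, mul_ite, mul_one, mul_zero, Finset.sum_ite_eq']
  split_ifs with h
  · rfl
  · exact (Finsupp.notMem_support_iff.1 h).symm

/-- Trigonometric polynomials with class-constant coefficients vanishing where no idempotent is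
available lie in the span of the idempotents. -/
lemma linComb_mem (r : Setoid ℤ) (B : Submodule ℂ L1) (Z : Set ℤ)
    (hB : ∀ S : Finset ℤ, ∀ n₀, n₀ ∉ Z → (∀ n, n ∈ S ↔ r n₀ n) → eS S ∈ B) (k : ℕ) :
    ∀ c : ℤ →₀ ℂ, c.support.card = k → (∀ m n, r m n → c m = c n) → (∀ n ∈ Z, c n = 0) →
      Finsupp.linearCombination ℂ ex c ∈ B := by
  classical
  induction k using Nat.strong_induction_on with
  | _ k ih =>
    intro c hk hc hcZ
    by_cases h0 : c = 0
    · rw [h0, map_zero]; exact B.zero_mem
    obtain ⟨n₀, hn₀⟩ := Finsupp.support_nonempty_iff.2 h0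
    have hcn₀ : c n₀ ≠ 0 := Finsupp.mem_support_iff.1 hn₀
    let S : Finset ℤ := c.support.filter (fun n => r n₀ n)
    have hS : ∀ n, n ∈ S ↔ r n₀ n := by
      intro n
      simp only [S, Finset.mem_filter, Finsupp.mem_support_iff]
      exact ⟨fun h => h.2, fun h => ⟨by rw [← hc n₀ n h]; exact hcn₀, h⟩⟩
    have hn₀S : n₀ ∈ S := (hS n₀).2 (r.refl n₀)
    have hn₀Z : n₀ ∉ Z := fun h => hcn₀ (hcZ n₀ h)
    let c' : ℤ →₀ ℂ := c.filter (fun n => n ∉ S)
    have hc'v : ∀ n, c' n = if n ∈ S then 0 else c n := by
      intro n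
      simp only [c', Finsupp.filter_apply]
      by_cases h : n ∈ S <;> simp [h]
    have hcard : c'.support.card < k := by
      rw [← hk]
      refine Finset.card_lt_card ?_
      rw [Finset.ssubset_iff_of_subset]
      · refine ⟨n₀, hn₀, ?_⟩
        rw [Finsupp.notMem_support_iff, hc'v, if_pos hn₀S]
      · intro n hn
        rw [Finsupp.mem_support_iff, hc'v] at hn
        rw [Finsupp.mem_support_iff]
        intro h
        apply hn
        rw [h, ite_self]
    have hmem := ih _ hcard c' rfl (by
      intro m n hmn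
      rw [hc'v, hc'v, hc m n hmn]
      have : m ∈ S ↔ n ∈ S := by
        rw [hS, hS]
        exact ⟨fun h => r.trans h hmn, fun h => r.trans h (r.symm hmn)⟩
      simp only [this]) (by
      intro n hn
      rw [hc'v, hcZ n hn, ite_self])
    have hdec : Finsupp.linearCombination ℂ ex c
        = Finsupp.linearCombination ℂ ex c' + c n₀ • eS S := by
      apply ext_coeff
      intro n
      rw [coeff_add, coeff_linComb, coeff_linComb, coeff_smul, coeff_eS, hc'v]
      by_cases h : n ∈ S
      · rw [if_pos h, if_pos h, ← hc n₀ n ((hS n).1 h)]; ring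
      · rw [if_neg h, if_neg h]; ring
    rw [hdec]
    exact B.add_mem hmem (B.smul_mem _ (hB S n₀ hn₀Z hS))

/-- The approximation property implies the synthesis property. -/
theorem synthesis_of_approx (r : Setoid ℤ) (hr : Approx r) : HasSynthesis r := by
  classical
  intro A hA hrel B hB hidem f hf
  let Z : Set ℤ := {n | ∀ g ∈ A, coeff g n = 0}
  have hZ : ∀ m n, m ∈ Z → n ∈ Z → r m n := by
    intro m n hm hn
    rw [← hrel]
    intro g hg
    have h1 := hm g hg
    have h2 := hn g hg
    simp only [coeff] at h1 h2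
    rw [h1, h2]
  have hES : ∀ S : Finset ℤ, ∀ n₀, n₀ ∉ Z → (∀ n, n ∈ S ↔ r n₀ n) → eS S ∈ B := by
    intro S n₀ hn₀ hS
    simp only [Z, Set.mem_ofPred_eq, not_forall] at hn₀
    obtain ⟨g, hg, hg0⟩ := hn₀
    refine hidem _ (eS_mem hA S n₀ ((hS n₀).2 (r.refl n₀)) (fun n => ?_) g hg hg0) (isConv_eS S)
    rw [hS, hrel]
  have hconst : ∀ m n, r m n → coeff f m = coeff f n := by
    intro m n hmn
    exact (hrel m n).2 hmn f hf
  have hinf : ∀ n, {m | r n m}.Infinite → coeff f n = 0 := by
    intro n hn
    exact coeff_eq_zero_of_infinite f n _ hn fun m hm => hconst n m hm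
  -- the cardinality of the zero class (0 if infinite)
  let K : ℝ := (Z.ncard : ℝ)
  have hK : 0 ≤ K := Nat.cast_nonneg _
  have hcl : f ∈ closure (B : Set L1) := by
    rw [Metric.mem_closure_iff]
    intro ε hε
    obtain ⟨c, hc, hfc⟩ := hr f hconst hinf (ε / (1 + K)) (by positivity)
    have hfc' : ‖f - Finsupp.linearCombination ℂ ex c‖ < ε / (1 + K) := hfc
    let c' : ℤ →₀ ℂ := c.filter (fun n => n ∉ Z)
    have hc'v : ∀ n, c' n = if n ∈ Z then 0 else c n := by
      intro n
      simp only [c', Finsupp.filter_apply]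
      by_cases h : n ∈ Z <;> simp [h]
    have hmemZ : ∀ m n, r m n → (m ∈ Z ↔ n ∈ Z) := by
      intro m n hmn
      have h := (hrel m n).2 hmn
      constructor
      · intro hm g hg
        have := h g hg
        change fourierCoeff (g : Circ → ℂ) n = 0
        rw [← this]; exact hm g hg
      · intro hn g hg
        have := h g hg
        change fourierCoeff (g : Circ → ℂ) m = 0
        rw [this]; exact hn g hg
    have hmem : Finsupp.linearCombination ℂ ex c' ∈ B := by
      refine linComb_mem r B Z hES _ c' rfl ?_ ?_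
      · intro m n hmn
        rw [hc'v, hc'v, hc m n hmn]
        simp only [hmemZ m n hmn]
      · intro n hn
        rw [hc'v, if_pos hn]
    refine ⟨_, hmem, ?_⟩
    rw [dist_eq_norm]
    -- difference between the two polynomials
    have hdiff : ‖Finsupp.linearCombination ℂ ex c - Finsupp.linearCombination ℂ ex c'‖
        ≤ K * (ε / (1 + K)) := by
      have e1 : Finsupp.linearCombination ℂ ex c - Finsupp.linearCombination ℂ ex c'
          = ∑ n ∈ c.support.filter (fun n => n ∈ Z), c n • ex n := by
        apply ext_coeff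
        intro n
        rw [coeff_sub, coeff_linComb, coeff_linComb, coeff_sum, hc'v]
        simp only [coeff_smul, coeff_ex, mul_ite, mul_one, mul_zero, Finset.sum_ite_eq',
          Finset.mem_filter, Finsupp.mem_support_iff]
        by_cases h : n ∈ Z
        · by_cases h' : c n = 0
          · simp [h, h']
          · simp [h, h']
        · simp [h]
      rw [e1]
      have hterm : ∀ n ∈ c.support.filter (fun n => n ∈ Z), ‖c n • ex n‖ ≤ ε / (1 + K) := by
        intro n hn
        rw [norm_smul, norm_ex, mul_one]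
        have h1 := norm_coeff_le (f - Finsupp.linearCombination ℂ ex c) n
        have h2 : coeff f n = 0 := (Finset.mem_filter.1 hn).2 f hf
        rw [coeff_sub, coeff_linComb, h2, zero_sub, norm_neg] at h1
        linarith
      refine (norm_sum_le_of_le _ hterm).trans ?_
      rw [Finset.sum_const, nsmul_eq_mul]
      refine mul_le_mul_of_nonneg_right ?_ (by positivity)
      -- cardinality
      by_cases hZf : Z.Finite
      · have : ((c.support.filter (fun n => n ∈ Z)).card : ℕ) ≤ Z.ncard := by
          rw [← Set.ncard_coe_finset]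
          refine Set.ncard_le_ncard ?_ hZf
          intro n hn
          exact (Finset.mem_filter.1 hn).2
        exact Nat.cast_le.2 this
      · have : c.support.filter (fun n => n ∈ Z) = ∅ := by
          rw [Finset.filter_eq_empty_iff]
          intro n hn hnZ
          -- class of n is Z, infinite, contained in the support
          apply hZf
          refine (c.support.finite_toSet).subset fun m hm => ?_
          have := hc m n (hZ m n hm hnZ)
          rw [Finset.mem_coe, Finsupp.mem_support_iff, this]
          exact Finsupp.mem_support_iff.1 hn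
        rw [this]
        simpa using hK
    have e2 : f - Finsupp.linearCombination ℂ ex c' = (f - Finsupp.linearCombination ℂ ex c)
        + (Finsupp.linearCombination ℂ ex c - Finsupp.linearCombination ℂ ex c') := by abel
    rw [e2]
    calc ‖(f - Finsupp.linearCombination ℂ ex c)
        + (Finsupp.linearCombination ℂ ex c - Finsupp.linearCombination ℂ ex c')‖
        ≤ ‖f - Finsupp.linearCombination ℂ ex c‖
          + ‖Finsupp.linearCombination ℂ ex c - Finsupp.linearCombination ℂ ex c'‖ :=
          norm_add_le _ _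
      _ < ε / (1 + K) + K * (ε / (1 + K)) := by linarith
      _ = ε := by field_simp
  rw [hB.1.closure_eq] at hcl
  exact hcl

end

end Pool.Agent.H87.Synth
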