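import Mathlib
import Pool.Agent.H87.Synth.Conv

/-!
Polynomials with coefficient sequences of tensor product form: sup norms, grid averages (which
bound `L¹` norms), Dirichlet kernels and Rudin-Shapiro polynomials.
-/

open MeasureTheory AddCircle

namespace Pool.Agent.H87.Synth

noncomputable section

/-- value of the polynomial with coefficients `u 0, …, u (A-1)` -/
def Ev (A : ℕ) (u : ℕ → ℂ) (z : ℂ) : ℂ := ∑ a ∈ Finset.range A, u a * z ^ a

/-- tensor product of coefficient sequences -/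
def tens (A : ℕ) (u v : ℕ → ℂ) : ℕ → ℂ := fun n => u (n % A) * v (n / A)

lemma sum_range_mul' {M : Type*} [AddCommMonoid M] (A B : ℕ) (f : ℕ → M) :
    ∑ n ∈ Finset.range (A * B), f n =
      ∑ b ∈ Finset.range B, ∑ a ∈ Finset.range A, f (A * b + a) := by
  induction B with
  | zero => simp
  | succ B ih =>
    rw [Nat.mul_succ, Finset.sum_range_add, ih, Finset.sum_range_succ]

lemma Ev_tens {A : ℕ} (B : ℕ) (hA : 0 < A) (u v : ℕ → ℂ) (z : ℂ) :
    Ev (A * B) (tens A u v) z = Ev A u z * Ev B v (z ^ A) := by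
  unfold Ev
  rw [sum_range_mul', Finset.sum_mul_sum, Finset.sum_comm]
  refine Finset.sum_congr rfl fun a ha => Finset.sum_congr rfl fun b _ => ?_
  have ha' := Finset.mem_range.1 ha
  unfold tens
  rw [Nat.mul_add_mod, Nat.mod_eq_of_lt ha', Nat.mul_add_div hA, Nat.div_eq_of_lt ha', add_zero,
    pow_add, pow_mul]
  ring

/-- primitive root of unity -/
def ze (A : ℕ) : ℂ := Complex.exp (2 * Real.pi * Complex.I / A)

lemma ze_norm (A : ℕ) : ‖ze A‖ = 1 := by
  unfold ze
  have : (2 * Real.pi * Complex.I / A : ℂ) = ((2 * Real.pi / A : ℝ) : ℂ) * Complex.I := by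
    push_cast; ring
  rw [this, Complex.norm_exp_ofReal_mul_I]

lemma ze_pow_self {A : ℕ} (hA : 0 < A) : ze A ^ A = 1 := by
  unfold ze
  rw [← Complex.exp_nat_mul]
  have hA' : (A : ℂ) ≠ 0 := by exact_mod_cast hA.ne'
  have : (A : ℂ) * (2 * Real.pi * Complex.I / A) = 2 * Real.pi * Complex.I := by
    field_simp
  rw [this, Complex.exp_two_pi_mul_I]

lemma ze_mul_pow_left {A B : ℕ} (hA : 0 < A) : ze (A * B) ^ A = ze B := by
  unfold ze
  rw [← Complex.exp_nat_mul]
  have hA' : (A : ℂ) ≠ 0 := by exact_mod_cast hA.ne'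
  congr 1
  push_cast
  by_cases hB : (B : ℂ) = 0
  · rw [hB]; simp
  · field_simp

lemma ze_mul_pow_right {A B : ℕ} (hB : 0 < B) : ze (A * B) ^ B = ze A := by
  rw [mul_comm]; exact ze_mul_pow_left hB

/-- sup norm bound on the unit circle -/
def SN (A : ℕ) (u : ℕ → ℂ) (K : ℝ) : Prop := ∀ z : ℂ, ‖z‖ = 1 → ‖Ev A u z‖ ≤ K

/-- bound for averages over the grid of `A`-th roots of unity -/
def GN (A : ℕ) (u : ℕ → ℂ) (K : ℝ) : Prop :=
  ∀ z : ℂ, ‖z‖ = 1 → ∑ k ∈ Finset.range A, ‖Ev A u (z * ze A ^ k)‖ ≤ A * K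

lemma norm_mul_ze {z : ℂ} (hz : ‖z‖ = 1) (A k : ℕ) : ‖z * ze A ^ k‖ = 1 := by
  rw [norm_mul, norm_pow, ze_norm, one_pow, mul_one, hz]

lemma SN.nonneg {A : ℕ} {u : ℕ → ℂ} {K : ℝ} (h : SN A u K) : 0 ≤ K :=
  (norm_nonneg _).trans (h 1 (by simp))

lemma SN.mono {A : ℕ} {u : ℕ → ℂ} {K K' : ℝ} (h : SN A u K) (hK : K ≤ K') : SN A u K' :=
  fun z hz => (h z hz).trans hK

lemma GN.mono {A : ℕ} {u : ℕ → ℂ} {K K' : ℝ} (h : GN A u K) (hK : K ≤ K') : GN A u K' :=
  fun z hz => (h z hz).trans (by gcongr)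

lemma SN.tens {A B : ℕ} (hA : 0 < A) {u v : ℕ → ℂ} {K K' : ℝ} (h : SN A u K) (h' : SN B v K') :
    SN (A * B) (tens A u v) (K * K') := by
  intro z hz
  rw [Ev_tens B hA, norm_mul]
  have hz' : ‖z ^ A‖ = 1 := by rw [norm_pow, hz, one_pow]
  exact mul_le_mul (h z hz) (h' _ hz') (norm_nonneg _) h.nonneg

lemma SN.gn {A : ℕ} {u : ℕ → ℂ} {K : ℝ} (h : SN A u K) : GN A u K := by
  intro z hz
  calc ∑ k ∈ Finset.range A, ‖Ev A u (z * ze A ^ k)‖ ≤ ∑ _k ∈ Finset.range A, K :=
        Finset.sum_le_sum fun k _ => h _ (norm_mul_ze hz A k)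
    _ = A * K := by rw [Finset.sum_const, Finset.card_range, nsmul_eq_mul]

lemma GN.nonneg {A : ℕ} (hA : 0 < A) {u : ℕ → ℂ} {K : ℝ} (h : GN A u K) : 0 ≤ K := by
  have h1 := h 1 (by simp)
  have h2 : 0 ≤ (A : ℝ) * K := (Finset.sum_nonneg fun _ _ => norm_nonneg _).trans h1
  have hA' : (0 : ℝ) < A := by exact_mod_cast hA
  exact nonneg_of_mul_nonneg_right h2 hA'

lemma GN.tens {A B : ℕ} (hA : 0 < A) (hB : 0 < B) {u v : ℕ → ℂ} {K K' : ℝ} (h : GN A u K)
    (h' : GN B v K') : GN (A * B) (tens A u v) (K * K') := by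
  intro z hz
  rw [mul_comm A B, sum_range_mul', Finset.sum_comm, mul_comm B A]
  have hterm : ∀ b ∈ Finset.range B, ∀ a ∈ Finset.range A,
      ‖Ev (A * B) (Synth.tens A u v) (z * ze (A * B) ^ (B * a + b))‖ =
      ‖Ev A u ((z * ze (A * B) ^ b) * ze A ^ a)‖ * ‖Ev B v (z ^ A * ze B ^ b)‖ := by
    intro b _ a _
    rw [Ev_tens B hA, norm_mul]
    congr 2
    · congr 1
      rw [pow_add, pow_mul, ze_mul_pow_right hB]; ring
    · congr 1
      rw [mul_pow, ← pow_mul, mul_comm (B * a + b) A, pow_mul, ze_mul_pow_left hA, pow_add,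
        pow_mul, ze_pow_self hB, one_pow, one_mul]
  have hK : 0 ≤ K := h.nonneg hA
  calc ∑ b ∈ Finset.range B, ∑ a ∈ Finset.range A,
      ‖Ev (A * B) (Synth.tens A u v) (z * ze (A * B) ^ (B * a + b))‖
      = ∑ b ∈ Finset.range B, (∑ a ∈ Finset.range A,
        ‖Ev A u ((z * ze (A * B) ^ b) * ze A ^ a)‖) * ‖Ev B v (z ^ A * ze B ^ b)‖ := by
        refine Finset.sum_congr rfl fun b hb => ?_
        rw [Finset.sum_mul]
        exact Finset.sum_congr rfl fun a ha => hterm b hb a ha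
    _ ≤ ∑ b ∈ Finset.range B, (A * K) * ‖Ev B v (z ^ A * ze B ^ b)‖ := by
        refine Finset.sum_le_sum fun b _ => ?_
        exact mul_le_mul_of_nonneg_right (h _ (norm_mul_ze hz _ b)) (norm_nonneg _)
    _ = (A * K) * ∑ b ∈ Finset.range B, ‖Ev B v (z ^ A * ze B ^ b)‖ := by
        rw [Finset.mul_sum]
    _ ≤ (A * K) * (B * K') := by
        refine mul_le_mul_of_nonneg_left (h' _ ?_) (by positivity)
        rw [norm_pow, hz, one_pow]
    _ = ((A * B : ℕ) : ℝ) * (K * K') := by push_cast; ring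

/-! ### The Dirichlet kernel -/

lemma grid_shift {A : ℕ} (hA : 0 < A) (g : ℂ → ℝ) (w : ℂ) (j : ℕ) :
    ∑ k ∈ Finset.range A, g (w * ze A ^ j * ze A ^ k) = ∑ k ∈ Finset.range A, g (w * ze A ^ k) := by
  induction j with
  | zero => simp
  | succ j ih =>
    rw [← ih]
    have h1 := Finset.sum_range_succ (fun k => g (w * ze A ^ j * ze A ^ k)) A
    have h2 := Finset.sum_range_succ' (fun k => g (w * ze A ^ j * ze A ^ k)) A
    rw [h1] at h2
    simp only [pow_zero, mul_one, ze_pow_self hA] at h2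
    have h3 := add_right_cancel h2
    rw [h3]
    refine Finset.sum_congr rfl fun k _ => ?_
    congr 1
    ring

lemma exists_angle {A : ℕ} (hA : 0 < A) {z : ℂ} (hz : ‖z‖ = 1) :
    ∃ (θ : ℝ) (j : ℕ), 0 ≤ θ ∧ θ < 2 * Real.pi / A ∧
      z = Complex.exp (Complex.I * θ) * ze A ^ j := by
  have hA' : (0 : ℝ) < A := by exact_mod_cast hA
  have hpi := Real.pi_pos
  obtain ⟨φ, hφ0, hφ⟩ : ∃ φ : ℝ, 0 ≤ φ ∧ z = Complex.exp (Complex.I * φ) := by
    have h1 : z = Complex.exp (Complex.I * (Complex.arg z : ℝ)) := by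
      have := Complex.norm_mul_exp_arg_mul_I z
      rw [hz, Complex.ofReal_one, one_mul] at this
      rw [mul_comm]; exact this.symm
    refine ⟨Complex.arg z + 2 * Real.pi, ?_, ?_⟩
    · linarith [Complex.neg_pi_lt_arg z]
    · conv_lhs => rw [h1]
      push_cast
      rw [mul_add, Complex.exp_add]
      have : Complex.I * (2 * Real.pi) = 2 * Real.pi * Complex.I := by ring
      rw [this, Complex.exp_two_pi_mul_I, mul_one]
  set j : ℕ := ⌊φ * A / (2 * Real.pi)⌋₊ with hj
  have hq : 0 ≤ φ * A / (2 * Real.pi) := by positivity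
  have h1 : (j : ℝ) ≤ φ * A / (2 * Real.pi) := Nat.floor_le hq
  have h2 : φ * A / (2 * Real.pi) < j + 1 := Nat.lt_floor_add_one _
  rw [le_div_iff₀ (by positivity)] at h1
  rw [div_lt_iff₀ (by positivity)] at h2
  refine ⟨φ - 2 * Real.pi * j / A, j, ?_, ?_, ?_⟩
  · rw [sub_nonneg, div_le_iff₀ hA']; linarith
  · rw [sub_lt_iff_lt_add, ← add_div, lt_div_iff₀ hA']; linarith
  · rw [hφ]
    unfold ze
    rw [← Complex.exp_nat_mul, ← Complex.exp_add]
    congr 1
    push_cast
    ring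

lemma Ev_one_le (A : ℕ) {z : ℂ} (hz : ‖z‖ = 1) : ‖Ev A (fun _ => 1) z‖ ≤ A := by
  unfold Ev
  refine (norm_sum_le _ _).trans ?_
  simp [hz]

lemma dirichlet_term {A k : ℕ} (hk : k < A) {θ : ℝ} (h0 : 0 ≤ θ) (h1 : θ < 2 * Real.pi / A) :
    ‖Ev A (fun _ => 1) (Complex.exp (Complex.I * θ) * ze A ^ k)‖ ≤
      A * (1 / ((k : ℝ) + 1) + 1 / ((A : ℝ) - k)) := by
  have hA : 0 < A := by omega
  have hA' : (0 : ℝ) < A := by exact_mod_cast hA
  have hpi := Real.pi_pos
  have hk' : (k : ℝ) + 1 ≤ A := by exact_mod_cast hk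
  have hw : ‖Complex.exp (Complex.I * θ)‖ = 1 := by
    rw [mul_comm, Complex.norm_exp_ofReal_mul_I]
  have hk0 : (0 : ℝ) ≤ k := Nat.cast_nonneg _
  by_cases hk1 : k = 0
  · subst hk1
    refine (Ev_one_le A (norm_mul_ze hw A 0)).trans ?_
    have : (0 : ℝ) ≤ 1 / ((A : ℝ) - (0 : ℕ)) := by
      rw [Nat.cast_zero, sub_zero]; positivity
    have h2 : (1 : ℝ) / (((0 : ℕ) : ℝ) + 1) = 1 := by norm_num
    rw [h2]
    nlinarith
  by_cases hk2 : k + 1 = A
  · refine (Ev_one_le A (norm_mul_ze hw A k)).trans ?_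
    have h2 : (A : ℝ) - k = 1 := by
      have : (k : ℝ) + 1 = A := by exact_mod_cast hk2
      linarith
    rw [h2]
    have : (0 : ℝ) ≤ 1 / ((k : ℝ) + 1) := by positivity
    nlinarith
  have hk1' : (1 : ℝ) ≤ k := by exact_mod_cast Nat.one_le_iff_ne_zero.2 hk1
  have hk2' : (k : ℝ) + 2 ≤ A := by
    have : k + 2 ≤ A := by omega
    exact_mod_cast this
  -- the angle
  set φ : ℝ := θ + 2 * Real.pi * k / A with hφ
  have hze : Complex.exp (Complex.I * θ) * ze A ^ k = Complex.exp (Complex.I * φ) := by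
    unfold ze
    rw [← Complex.exp_nat_mul, ← Complex.exp_add]
    congr 1
    rw [hφ]
    push_cast
    ring
  have hφ1 : 2 * Real.pi * k / A ≤ φ := by linarith
  have hφ2 : φ < 2 * Real.pi * (k + 1) / A := by
    have : 2 * Real.pi * ((k : ℝ) + 1) / A = 2 * Real.pi / A + 2 * Real.pi * k / A := by ring
    rw [this]; linarith
  have hsin : 0 < Real.sin (φ / 2) ∧
      1 / Real.sin (φ / 2) ≤ A * (1 / ((k : ℝ) + 1) + 1 / ((A : ℝ) - k)) := by
    have hnn1 : 0 ≤ 1 / ((k : ℝ) + 1) := by positivity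
    have hnn2 : 0 ≤ 1 / ((A : ℝ) - k) := by
      have : (0 : ℝ) < A - k := by linarith
      positivity
    rcases le_total (φ / 2) (Real.pi / 2) with hle | hge
    · have hs : 2 / Real.pi * (φ / 2) ≤ Real.sin (φ / 2) :=
        Real.mul_le_sin (by positivity) hle
      have hs2 : 2 * (k : ℝ) / A ≤ Real.sin (φ / 2) := by
        refine le_trans ?_ hs
        have h3 : 2 / Real.pi * (φ / 2) = φ / Real.pi := by field_simp
        rw [h3, le_div_iff₀ hpi]
        calc 2 * (k : ℝ) / A * Real.pi = 2 * Real.pi * k / A := by ring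
          _ ≤ φ := hφ1
      have hpos : 0 < 2 * (k : ℝ) / A := by positivity
      refine ⟨hpos.trans_le hs2, ?_⟩
      calc 1 / Real.sin (φ / 2) ≤ 1 / (2 * (k : ℝ) / A) := one_div_le_one_div_of_le hpos hs2
        _ = A * (1 / (2 * k)) := by field_simp
        _ ≤ A * (1 / ((k : ℝ) + 1)) := by
            gcongr
            linarith
        _ ≤ _ := by gcongr; linarith
    · have hs : 2 / Real.pi * (Real.pi - φ / 2) ≤ Real.sin (Real.pi - φ / 2) := by
        refine Real.mul_le_sin ?_ (by linarith)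
        have : φ ≤ 2 * Real.pi := by
          refine hφ2.le.trans ?_
          rw [div_le_iff₀ hA']
          nlinarith
        linarith
      rw [Real.sin_pi_sub] at hs
      have hs2 : 2 * ((A : ℝ) - k - 1) / A ≤ Real.sin (φ / 2) := by
        refine le_trans ?_ hs
        have h3 : 2 / Real.pi * (Real.pi - φ / 2) = 2 - φ / Real.pi := by field_simp
        rw [h3]
        have h4 : φ / Real.pi ≤ 2 * ((k : ℝ) + 1) / A := by
          rw [div_le_iff₀ hpi]
          refine hφ2.le.trans (le_of_eq ?_)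
          ring
        have h5 : 2 * ((A : ℝ) - k - 1) / A = 2 - 2 * ((k : ℝ) + 1) / A := by
          field_simp
          ring
        rw [h5]; linarith
      have hpos' : 0 < (A : ℝ) - k - 1 := by linarith
      have hpos : 0 < 2 * ((A : ℝ) - k - 1) / A := by positivity
      refine ⟨hpos.trans_le hs2, ?_⟩
      have hAk : (0 : ℝ) < (A : ℝ) - k := by linarith
      calc 1 / Real.sin (φ / 2) ≤ 1 / (2 * ((A : ℝ) - k - 1) / A) :=
            one_div_le_one_div_of_le hpos hs2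
        _ = A * (1 / (2 * ((A : ℝ) - k - 1))) := by field_simp
        _ ≤ A * (1 / ((A : ℝ) - k)) := by
            gcongr
            linarith
        _ ≤ _ := by gcongr; linarith
  obtain ⟨hs0, hs1⟩ := hsin
  rw [hze]
  refine le_trans ?_ hs1
  have hne : ‖Complex.exp (Complex.I * φ) - 1‖ = 2 * Real.sin (φ / 2) := by
    rw [Complex.norm_exp_I_mul_ofReal_sub_one, Real.norm_eq_abs, abs_of_pos (by linarith)]
  have hne0 : Complex.exp (Complex.I * φ) ≠ 1 := by
    intro h
    rw [h, sub_self, norm_zero] at hne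
    linarith
  have hEv : Ev A (fun _ => 1) (Complex.exp (Complex.I * φ)) =
      ((Complex.exp (Complex.I * φ)) ^ A - 1) / (Complex.exp (Complex.I * φ) - 1) := by
    unfold Ev
    simp only [one_mul]
    exact geom_sum_eq hne0 A
  rw [hEv, norm_div, hne]
  have hnum : ‖(Complex.exp (Complex.I * φ)) ^ A - 1‖ ≤ 2 := by
    refine (norm_sub_le _ _).trans ?_
    rw [norm_pow, mul_comm, Complex.norm_exp_ofReal_mul_I]
    norm_num
  rw [div_le_div_iff₀ (by linarith) hs0]
  nlinarith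

/-- grid averages of Dirichlet kernels are logarithmic -/
lemma GN_one (m : ℕ) : GN (2 ^ m) (fun _ => 1) (2 * (m + 1)) := by
  intro z hz
  have hA : 0 < 2 ^ m := by positivity
  obtain ⟨θ, j, h0, h1, rfl⟩ := exists_angle hA hz
  rw [grid_shift hA (fun w => ‖Ev (2 ^ m) (fun _ => 1) w‖)]
  calc ∑ k ∈ Finset.range (2 ^ m),
        ‖Ev (2 ^ m) (fun _ => 1) (Complex.exp (Complex.I * θ) * ze (2 ^ m) ^ k)‖
      ≤ ∑ k ∈ Finset.range (2 ^ m), (((2 ^ m : ℕ) : ℝ) * (1 / ((k : ℝ) + 1) +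
          1 / (((2 ^ m : ℕ) : ℝ) - k))) := by
        refine Finset.sum_le_sum fun k hk => ?_
        exact dirichlet_term (Finset.mem_range.1 hk) h0 h1
    _ = ((2 ^ m : ℕ) : ℝ) * (2 * ∑ k ∈ Finset.range (2 ^ m), 1 / ((k : ℝ) + 1)) := by
        rw [← Finset.mul_sum, Finset.sum_add_distrib, two_mul]
        congr 2
        rw [← Finset.sum_range_reflect]
        refine Finset.sum_congr rfl fun k hk => ?_
        have hk' := Finset.mem_range.1 hk
        congr 1
        have : ((2 ^ m - 1 - k : ℕ) : ℝ) = ((2 ^ m : ℕ) : ℝ) - 1 - k := by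
          rw [Nat.cast_sub (by omega), Nat.cast_sub (by omega), Nat.cast_one]
        rw [this]; ring
    _ ≤ ((2 ^ m : ℕ) : ℝ) * (2 * (m + 1)) := by
        gcongr
        have h2 := harmonic_le_one_add_log (2 ^ m)
        have h3 : ((harmonic (2 ^ m) : ℚ) : ℝ) = ∑ k ∈ Finset.range (2 ^ m), 1 / ((k : ℝ) + 1) := by
          unfold harmonic
          push_cast
          exact Finset.sum_congr rfl fun k _ => by rw [one_div]
        rw [← h3]
        refine h2.trans ?_
        push_cast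
        rw [Real.log_pow]
        have h4 : Real.log 2 ≤ 1 := by
          have := Real.log_le_sub_one_of_pos (show (0 : ℝ) < 2 by norm_num)
          linarith
        have h5 : (0 : ℝ) ≤ m := Nat.cast_nonneg _
        nlinarith

lemma SN_one (A : ℕ) : SN A (fun _ => 1) A := fun _ hz => Ev_one_le A hz

/-! ### Rudin-Shapiro signs -/

/-- sign of a bit -/
def sgn (b : Bool) : ℂ := if b then -1 else 1

lemma sgn_xor (a b : Bool) : sgn (xor a b) = sgn a * sgn b := by
  cases a <;> cases b <;> simp [sgn]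

lemma norm_sgn (b : Bool) : ‖sgn b‖ = 1 := by cases b <;> simp [sgn]

/-- Rudin-Shapiro bits: the two companion sequences of length `2^m` -/
def rsb : Bool → ℕ → ℕ → Bool
  | _, 0, _ => false
  | w, m + 1, t => if t < 2 ^ m then rsb false m t else xor w (rsb true m (t - 2 ^ m))

lemma rsb_succ (w : Bool) (m t : ℕ) : rsb w (m + 1) t =
    if t < 2 ^ m then rsb false m t else xor w (rsb true m (t - 2 ^ m)) := by
  cases w <;> rfl

lemma Ev_rs_succ (w : Bool) (m : ℕ) (z : ℂ) :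
    Ev (2 ^ (m + 1)) (fun t => sgn (rsb w (m + 1) t)) z =
      Ev (2 ^ m) (fun t => sgn (rsb false m t)) z +
        sgn w * z ^ (2 ^ m) * Ev (2 ^ m) (fun t => sgn (rsb true m t)) z := by
  unfold Ev
  rw [pow_succ, mul_two, Finset.sum_range_add, Finset.mul_sum]
  congr 1
  · refine Finset.sum_congr rfl fun t ht => ?_
    beta_reduce
    rw [rsb_succ, if_pos (Finset.mem_range.1 ht)]
  · refine Finset.sum_congr rfl fun t _ => ?_
    beta_reduce
    rw [rsb_succ, if_neg (by omega), Nat.add_sub_cancel_left, sgn_xor, pow_add]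
    ring

lemma golay (m : ℕ) {z : ℂ} (hz : ‖z‖ = 1) :
    ‖Ev (2 ^ m) (fun t => sgn (rsb false m t)) z‖ ^ 2 +
      ‖Ev (2 ^ m) (fun t => sgn (rsb true m t)) z‖ ^ 2 = 2 ^ (m + 1) := by
  induction m with
  | zero => simp [Ev, rsb, sgn]; norm_num
  | succ m ih =>
    rw [Ev_rs_succ, Ev_rs_succ]
    set P := Ev (2 ^ m) (fun t => sgn (rsb false m t)) z
    set Q := Ev (2 ^ m) (fun t => sgn (rsb true m t)) z
    have h1 := parallelogram_law_with_norm ℝ P (z ^ (2 ^ m) * Q)
    have h2 : ‖z ^ (2 ^ m) * Q‖ = ‖Q‖ := by rw [norm_mul, norm_pow, hz, one_pow, one_mul]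
    have h3 : P + sgn false * z ^ (2 ^ m) * Q = P + z ^ (2 ^ m) * Q := by simp [sgn]
    have h4 : P + sgn true * z ^ (2 ^ m) * Q = P - z ^ (2 ^ m) * Q := by simp [sgn]; ring
    rw [h3, h4]
    rw [h2] at h1
    have h5 : ‖P + z ^ (2 ^ m) * Q‖ ^ 2 + ‖P - z ^ (2 ^ m) * Q‖ ^ 2 = 2 * (‖P‖ ^ 2 + ‖Q‖ ^ 2) := by
      nlinarith [h1]
    rw [h5, ih]; ring

lemma SN_rs (l : ℕ) : SN (2 ^ (2 * l)) (fun t => sgn (rsb false (2 * l) t)) (2 * 2 ^ l) := by
  intro z hz
  have h := golay (2 * l) hz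
  refine le_of_sq_le_sq ?_ (by positivity)
  calc ‖Ev (2 ^ (2 * l)) (fun t => sgn (rsb false (2 * l) t)) z‖ ^ 2 ≤ 2 ^ (2 * l + 1) := by
        rw [← h]; nlinarith [sq_nonneg ‖Ev (2 ^ (2 * l)) (fun t => sgn (rsb true (2 * l) t)) z‖]
    _ ≤ (2 * 2 ^ l) ^ 2 := by
        rw [mul_pow, ← pow_mul, pow_succ, mul_comm l 2]
        have : (0 : ℝ) < 2 ^ (2 * l) := by positivity
        nlinarith

/-! ### Norms of trigonometric polynomials -/

lemma fourier_add_nat (s : ℤ) (a : ℕ) (x : Circ) :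
    (fourier (s + a) x : ℂ) = fourier s x * (fourier 1 x : ℂ) ^ a := by
  induction a with
  | zero => simp
  | succ a ih =>
    push_cast
    rw [← add_assoc, fourier_add, ih, pow_succ]; ring

lemma norm_le_of_GN {A : ℕ} (hA : 0 < A) {u : ℕ → ℂ} {K : ℝ} (h : GN A u K) (s : ℤ) :
    ‖(∑ a ∈ Finset.range A, u a • ex (s + a) : L1)‖ ≤ K := by
  classical
  -- as an integral
  have h1 : ‖(∑ a ∈ Finset.range A, u a • ex (s + a) : L1)‖ =
      ∫ x : Circ, ‖Ev A u (fourier 1 x : ℂ)‖ ∂haarAddCircle := by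
    have hinj : Set.InjOn (fun a : ℕ => s + (a : ℤ)) (Finset.range A : Set ℕ) := by
      intro a _ b _ hab
      simpa using hab
    let w : ℤ → ℂ := fun n => u (n - s).toNat
    have h2 : (∑ a ∈ Finset.range A, u a • ex (s + a) : L1) =
        ∑ n ∈ (Finset.range A).image (fun a : ℕ => s + (a : ℤ)), w n • ex n := by
      rw [Finset.sum_image hinj]
      refine Finset.sum_congr rfl fun a _ => ?_
      simp [w]
    rw [h2, norm_sum_ex]
    congr 1
    funext x
    rw [Finset.sum_image hinj]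
    have h3 : ∑ a ∈ Finset.range A, w (s + a) * (fourier (s + a) x : ℂ) =
        fourier s x * Ev A u (fourier 1 x : ℂ) := by
      unfold Ev
      rw [Finset.mul_sum]
      refine Finset.sum_congr rfl fun a _ => ?_
      rw [fourier_add_nat]
      simp only [w, add_sub_cancel_left, Int.toNat_natCast]
      ring
    rw [h3, norm_mul, fourier_norm_apply, one_mul]
  -- translation invariance
  have hcont : Continuous (fun x : Circ => ‖Ev A u (fourier 1 x : ℂ)‖) := by
    unfold Ev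
    refine Continuous.norm ?_
    refine continuous_finsetSum _ fun a _ => continuous_const.mul (Continuous.pow ?_ _)
    exact (fourier 1 : C(Circ, ℂ)).continuous
  let t : ℕ → Circ := fun k => ((2 * Real.pi * k / A : ℝ) : Circ)
  have ht : ∀ k, (fourier 1 (t k) : ℂ) = ze A ^ k := by
    intro k
    rw [fourier_coe_apply]
    unfold ze
    rw [← Complex.exp_nat_mul]
    congr 1
    have hpi : (Real.pi : ℂ) ≠ 0 := by exact_mod_cast Real.pi_ne_zero
    push_cast
    field_simp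
  have h4 : ∀ k, ∫ x : Circ, ‖Ev A u (fourier 1 x : ℂ)‖ ∂haarAddCircle =
      ∫ x : Circ, ‖Ev A u ((fourier 1 x : ℂ) * ze A ^ k)‖ ∂haarAddCircle := by
    intro k
    rw [← integral_add_right_eq_self (fun x : Circ => ‖Ev A u (fourier 1 x : ℂ)‖) (t k)]
    congr 1
    funext x
    have : (fourier 1 (x + t k) : ℂ) = fourier 1 x * fourier 1 (t k) := by
      simp only [fourier_apply, smul_add, toCircle_add, Circle.coe_mul]
    rw [this, ht]
  have hint : ∀ k, Integrable (fun x : Circ => ‖Ev A u ((fourier 1 x : ℂ) * ze A ^ k)‖)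
      haarAddCircle := by
    intro k
    have hc : Continuous (fun x : Circ => ‖Ev A u ((fourier 1 x : ℂ) * ze A ^ k)‖) := by
      unfold Ev
      refine Continuous.norm ?_
      refine continuous_finsetSum _ fun a _ => continuous_const.mul (Continuous.pow ?_ _)
      exact (fourier 1 : C(Circ, ℂ)).continuous.mul continuous_const
    exact hc.integrable_of_hasCompactSupport (HasCompactSupport.of_compactSpace _)
  have hA' : (0 : ℝ) < A := by exact_mod_cast hA
  have h5 : (A : ℝ) * ∫ x : Circ, ‖Ev A u (fourier 1 x : ℂ)‖ ∂haarAddCircle ≤ A * K := by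
    calc (A : ℝ) * ∫ x : Circ, ‖Ev A u (fourier 1 x : ℂ)‖ ∂haarAddCircle
        = ∑ k ∈ Finset.range A,
          ∫ x : Circ, ‖Ev A u ((fourier 1 x : ℂ) * ze A ^ k)‖ ∂haarAddCircle := by
          rw [Finset.sum_congr rfl fun k _ => (h4 k).symm, Finset.sum_const, Finset.card_range,
            nsmul_eq_mul]
      _ = ∫ x : Circ, ∑ k ∈ Finset.range A, ‖Ev A u ((fourier 1 x : ℂ) * ze A ^ k)‖
            ∂haarAddCircle := by
          rw [integral_finsetSum _ fun k _ => hint k]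
      _ ≤ ∫ _x : Circ, (A : ℝ) * K ∂haarAddCircle := by
          refine integral_mono (integrable_finsetSum _ fun k _ => hint k)
            (integrable_const _) fun x => ?_
          exact h _ (fourier_norm_apply 1 x)
      _ = A * K := by simp
  rw [h1]
  exact le_of_mul_le_mul_left h5 hA'

lemma fourier_neg_add_nat (s : ℤ) (a : ℕ) (x : Circ) :
    (fourier (-(s + a)) x : ℂ) = fourier (-s) x * (fourier (-1) x : ℂ) ^ a := by
  induction a with
  | zero => simp
  | succ a ih =>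
    have : -(s + ((a + 1 : ℕ) : ℤ)) = -(s + a) + -1 := by push_cast; ring
    rw [this, fourier_add, ih, pow_succ]; ring

lemma norm_le_of_SN {A : ℕ} {u : ℕ → ℂ} {K : ℝ} (h : SN A u K) (s : ℤ) (x : Circ) :
    ‖∑ a ∈ Finset.range A, u a * (fourier (-(s + a)) x : ℂ)‖ ≤ K := by
  have h3 : ∑ a ∈ Finset.range A, u a * (fourier (-(s + a)) x : ℂ) =
      fourier (-s) x * Ev A u (fourier (-1) x : ℂ) := by
    unfold Ev
    rw [Finset.mul_sum]
    refine Finset.sum_congr rfl fun a _ => ?_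
    rw [fourier_neg_add_nat]; ring
  rw [h3, norm_mul, fourier_norm_apply, one_mul]
  exact h _ (fourier_norm_apply _ x)

end

end Pool.Agent.H87.Synth
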