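import Mathlib
import Pool.Agent.H87.Synth.Grid

/-!
The combinatorial part of the counterexample: positions, cells, and the pairing of cells.
-/

namespace Pool.Agent.H87.Synth.Con

noncomputable section

/-- number of transfer windows before level `j` -/
def aa (q j : ℕ) : ℕ := j / q

/-- binary logarithm of the number of bulk blocks of level `j` -/
def MM (q j : ℕ) : ℕ := 2 * (j - 2 * aa q j)

/-- size parameter -/
def ll (q j : ℕ) : ℕ := j / (2 * q)

/-- is the special window of level `j` a transfer window? -/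
def isT (q j : ℕ) : Bool := decide (q ∣ j + 1)

/-- start of level `j` -/
def P (q : ℕ) : ℕ → ℕ
  | 0 => 4
  | j + 1 => P q j + 4 * 2 ^ MM q j + 8 * 2 ^ j

def l1 (q j : ℕ) : ℕ := if isT q j then ll q j else 0
def l2 (q j : ℕ) : ℕ := if isT q j then ll q j else 3 * ll q j

/-- the three digit-based signs of a group -/
def r1 (q j t : ℕ) : Bool := rsb false (2 * l1 q j) (t % 2 ^ (2 * l1 q j))
def r2 (q j t : ℕ) : Bool := rsb false (2 * l2 q j) (t / 2 ^ (2 * l1 q j) % 2 ^ (2 * l2 q j))
def r3 (q j t : ℕ) : Bool :=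
  rsb false (2 * l2 q j) (t / 2 ^ (2 * l1 q j) / 2 ^ (2 * l2 q j) % 2 ^ (2 * l2 q j))

/-- bulk signs -/
def rb (q j i : ℕ) : Bool := rsb false (MM q j) i

/-- cells of the partition of `ℕ` -/
inductive Cell : Type
  | init (s p : Bool) : Cell
  | bulk (j i : ℕ) (s p : Bool) : Cell
  | spec (j t : ℕ) (c1 c2 c3 : Bool) : Cell

/-- admissible cells -/
def Valid (q : ℕ) : Cell → Prop
  | Cell.init _ _ => True
  | Cell.bulk j i _ _ => i < 2 ^ MM q j
  | Cell.spec j t _ _ _ => t < 2 ^ j

/-- position of a cell -/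
def enc (q : ℕ) : Cell → ℕ
  | Cell.init s p => p.toNat + 2 * s.toNat
  | Cell.bulk j i s p => P q j + (4 * i + (p.toNat + 2 * (xor s (rb q j i)).toNat))
  | Cell.spec j t c1 c2 c3 => P q j + 4 * 2 ^ MM q j +
      (8 * t + ((xor c1 (r1 q j t)).toNat + 2 * (xor c2 (r2 q j t)).toNat +
        4 * (xor c3 (r3 q j t)).toNat))

def b0 (n : ℕ) : Bool := decide (n % 2 = 1)
def b1 (n : ℕ) : Bool := decide (n / 2 % 2 = 1)
def b2 (n : ℕ) : Bool := decide (n / 4 % 2 = 1)

/-- level of a position -/
def lev (q n : ℕ) : ℕ := Nat.findGreatest (fun j => P q j ≤ n) n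

lemma P_lt_succ (q j : ℕ) : P q j < P q (j + 1) := by
  rw [P]
  have : 0 < 2 ^ j := by positivity
  omega

lemma P_strictMono (q : ℕ) : StrictMono (P q) := strictMono_nat_of_lt_succ (P_lt_succ q)

lemma four_le_P (q j : ℕ) : 4 ≤ P q j := by
  have := (P_strictMono q).monotone (Nat.zero_le j)
  simpa [P] using this

lemma lt_P (q j : ℕ) : j < P q j := by
  have := (P_strictMono q).id_le j
  induction j with
  | zero => simp [P]
  | succ j ih =>
    have h1 := P_lt_succ q j
    have h2 := ih ((P_strictMono q).id_le j)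
    omega

lemma lev_eq {q j n : ℕ} (h1 : P q j ≤ n) (h2 : n < P q (j + 1)) : lev q n = j := by
  unfold lev
  rw [Nat.findGreatest_eq_iff]
  refine ⟨by have := lt_P q j; omega, fun _ => h1, fun k hk _ => ?_⟩
  have := (P_strictMono q).monotone (show j + 1 ≤ k by omega)
  omega

lemma lev_spec {q n : ℕ} (h : 4 ≤ n) : P q (lev q n) ≤ n ∧ n < P q (lev q n + 1) := by
  unfold lev
  constructor
  · exact Nat.findGreatest_spec (P := fun j => P q j ≤ n) (Nat.zero_le n) (by simpa [P] using h)
  · by_contra hcon
    push Not at hcon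
    have h1 := lt_P q (Nat.findGreatest (fun j => P q j ≤ n) n + 1)
    have h2 := Nat.le_findGreatest (P := fun j => P q j ≤ n)
      (show Nat.findGreatest (fun j => P q j ≤ n) n + 1 ≤ n by omega) hcon
    omega

/-- decoding of positions -/
def dec (q n : ℕ) : Cell :=
  if n < 4 then Cell.init (b1 n) (b0 n)
  else
    if n - P q (lev q n) < 4 * 2 ^ MM q (lev q n) then
      Cell.bulk (lev q n) ((n - P q (lev q n)) / 4)
        (xor (b1 (n - P q (lev q n))) (rb q (lev q n) ((n - P q (lev q n)) / 4)))
        (b0 (n - P q (lev q n)))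
    else
      Cell.spec (lev q n) ((n - P q (lev q n) - 4 * 2 ^ MM q (lev q n)) / 8)
        (xor (b0 (n - P q (lev q n) - 4 * 2 ^ MM q (lev q n)))
          (r1 q (lev q n) ((n - P q (lev q n) - 4 * 2 ^ MM q (lev q n)) / 8)))
        (xor (b1 (n - P q (lev q n) - 4 * 2 ^ MM q (lev q n)))
          (r2 q (lev q n) ((n - P q (lev q n) - 4 * 2 ^ MM q (lev q n)) / 8)))
        (xor (b2 (n - P q (lev q n) - 4 * 2 ^ MM q (lev q n)))
          (r3 q (lev q n) ((n - P q (lev q n) - 4 * 2 ^ MM q (lev q n)) / 8)))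

lemma dec_bulk {q j a : ℕ} (ha : a < 4 * 2 ^ MM q j) :
    dec q (P q j + a) = Cell.bulk j (a / 4) (xor (b1 a) (rb q j (a / 4))) (b0 a) := by
  have hl : lev q (P q j + a) = j := lev_eq (by omega) (by rw [P]; omega)
  have h4 := four_le_P q j
  unfold dec
  rw [if_neg (by omega), hl, Nat.add_sub_cancel_left, if_pos ha]

lemma dec_spec {q j a : ℕ} (ha : a < 8 * 2 ^ j) :
    dec q (P q j + 4 * 2 ^ MM q j + a) = Cell.spec j (a / 8) (xor (b0 a) (r1 q j (a / 8)))
      (xor (b1 a) (r2 q j (a / 8))) (xor (b2 a) (r3 q j (a / 8))) := by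
  have hl : lev q (P q j + 4 * 2 ^ MM q j + a) = j := lev_eq (by omega) (by rw [P]; omega)
  have h4 := four_le_P q j
  unfold dec
  have h5 : P q j + 4 * 2 ^ MM q j + a - P q j - 4 * 2 ^ MM q j = a := by omega
  rw [if_neg (by omega), hl, if_neg (by omega), h5]

lemma toNat_b0 (n : ℕ) : (b0 n).toNat = n % 2 := by
  unfold b0
  rcases Nat.mod_two_eq_zero_or_one n with h | h <;> simp [h]

lemma toNat_b1 (n : ℕ) : (b1 n).toNat = n / 2 % 2 := by
  unfold b1
  rcases Nat.mod_two_eq_zero_or_one (n / 2) with h | h <;> simp [h]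

lemma toNat_b2 (n : ℕ) : (b2 n).toNat = n / 4 % 2 := by
  unfold b2
  rcases Nat.mod_two_eq_zero_or_one (n / 4) with h | h <;> simp [h]

lemma enc_dec (q n : ℕ) : enc q (dec q n) = n := by
  by_cases h : n < 4
  · unfold dec
    rw [if_pos h]
    simp only [enc, toNat_b0, toNat_b1]
    omega
  · obtain ⟨h1, h2⟩ := lev_spec (q := q) (show 4 ≤ n by omega)
    set j := lev q n
    by_cases hb : n - P q j < 4 * 2 ^ MM q j
    · have : n = P q j + (n - P q j) := by omega
      conv_lhs => rw [this]
      rw [dec_bulk hb]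
      simp only [enc, Bool.xor_assoc, Bool.xor_self, Bool.xor_false, toNat_b0, toNat_b1]
      omega
    · rw [P] at h2
      have : n = P q j + 4 * 2 ^ MM q j + (n - P q j - 4 * 2 ^ MM q j) := by omega
      conv_lhs => rw [this]
      rw [dec_spec (by omega)]
      simp only [enc, Bool.xor_assoc, Bool.xor_self, Bool.xor_false, toNat_b0, toNat_b1, toNat_b2]
      omega

lemma valid_dec (q n : ℕ) : Valid q (dec q n) := by
  by_cases h : n < 4
  · unfold dec
    rw [if_pos h]
    trivial
  · obtain ⟨h1, h2⟩ := lev_spec (q := q) (show 4 ≤ n by omega)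
    set j := lev q n
    by_cases hb : n - P q j < 4 * 2 ^ MM q j
    · have : n = P q j + (n - P q j) := by omega
      rw [this, dec_bulk hb]
      simp only [Valid]
      omega
    · rw [P] at h2
      have : n = P q j + 4 * 2 ^ MM q j + (n - P q j - 4 * 2 ^ MM q j) := by omega
      rw [this, dec_spec (by omega)]
      simp only [Valid]
      omega

lemma b_of_toNat (p s : Bool) (k : ℕ) :
    b0 (4 * k + (p.toNat + 2 * s.toNat)) = p ∧ b1 (4 * k + (p.toNat + 2 * s.toNat)) = s := by
  unfold b0 b1
  cases p <;> cases s <;> simp <;> omega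

lemma b_of_toNat3 (p s r : Bool) (k : ℕ) :
    b0 (8 * k + (p.toNat + 2 * s.toNat + 4 * r.toNat)) = p ∧
    b1 (8 * k + (p.toNat + 2 * s.toNat + 4 * r.toNat)) = s ∧
    b2 (8 * k + (p.toNat + 2 * s.toNat + 4 * r.toNat)) = r := by
  unfold b0 b1 b2
  cases p <;> cases s <;> cases r <;> simp <;> omega

lemma toNat_le (b : Bool) : b.toNat ≤ 1 := by cases b <;> simp

lemma dec_enc {q : ℕ} {c : Cell} (hc : Valid q c) : dec q (enc q c) = c := by
  cases c with
  | init s p =>
    unfold dec enc
    cases s <;> cases p <;> simp [b0, b1]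
  | bulk j i s p =>
    simp only [Valid] at hc
    simp only [enc]
    have h1 := toNat_le p
    have h2 := toNat_le (xor s (rb q j i))
    rw [dec_bulk (by omega)]
    obtain ⟨h3, h4⟩ := b_of_toNat p (xor s (rb q j i)) i
    have h5 : (4 * i + (p.toNat + 2 * (xor s (rb q j i)).toNat)) / 4 = i := by omega
    rw [h3, h4, h5, Bool.xor_assoc, Bool.xor_self, Bool.xor_false]
  | spec j t c1 c2 c3 =>
    simp only [Valid] at hc
    simp only [enc]
    have h1 := toNat_le (xor c1 (r1 q j t))
    have h2 := toNat_le (xor c2 (r2 q j t))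
    have h3 := toNat_le (xor c3 (r3 q j t))
    rw [dec_spec (by omega)]
    obtain ⟨h4, h5, h6⟩ := b_of_toNat3 (xor c1 (r1 q j t)) (xor c2 (r2 q j t))
      (xor c3 (r3 q j t)) t
    have h7 : (8 * t + ((xor c1 (r1 q j t)).toNat + 2 * (xor c2 (r2 q j t)).toNat +
        4 * (xor c3 (r3 q j t)).toNat)) / 8 = t := by omega
    rw [h4, h5, h6, h7]
    simp only [Bool.xor_assoc, Bool.xor_self, Bool.xor_false]

/-! ### The pairing -/

/-- the partner of a cell -/
def link (q : ℕ) : Cell → Cell
  | Cell.init s p => if s then Cell.init s p else Cell.bulk 0 0 true p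
  | Cell.bulk j i s p =>
    if s then
      if 2 ^ j ≤ i then Cell.bulk j (i - 2 ^ j) false p
      else if j = 0 then Cell.init false p
      else Cell.spec (j - 1) (i / 2) p (b0 i) (!b0 i)
    else
      if i + 2 ^ j < 2 ^ MM q j then Cell.bulk j (i + 2 ^ j) true p
      else Cell.spec j (i + 2 ^ j - 2 ^ MM q j) p (isT q j && p) (isT q j && p)
  | Cell.spec j t c1 c2 c3 =>
    if c2 = c3 then
      if isT q j then
        if c1 = c2 then Cell.bulk j (t + 2 ^ MM q j - 2 ^ j) false c1
        else Cell.spec j t (!c1) (!c2) (!c3)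
      else
        if c2 then Cell.spec j t c1 c2 c3
        else Cell.bulk j (t + 2 ^ MM q j - 2 ^ j) false c1
    else Cell.bulk (j + 1) (2 * t + c2.toNat) true c1

lemma two_aa_le {q : ℕ} (hq : 4 ≤ q) (j : ℕ) : 4 * aa q j ≤ j := by
  unfold aa
  have h1 : j / q * q ≤ j := Nat.div_mul_le_self j q
  have h2 : j / q * 4 ≤ j / q * q := Nat.mul_le_mul_left _ hq
  omega

lemma le_MM {q : ℕ} (hq : 4 ≤ q) (j : ℕ) : j ≤ MM q j := by
  unfold MM
  have := two_aa_le hq j
  omega

lemma pow_le_MM {q : ℕ} (hq : 4 ≤ q) (j : ℕ) : 2 ^ j ≤ 2 ^ MM q j :=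
  Nat.pow_le_pow_right (by norm_num) (le_MM hq j)

lemma link_valid {q : ℕ} (hq : 4 ≤ q) {c : Cell} (hc : Valid q c) : Valid q (link q c) := by
  have hpos : ∀ k : ℕ, 0 < 2 ^ k := fun k => by positivity
  cases c with
  | init s p =>
    cases s
    · simp only [link, Valid, if_false, Bool.false_eq_true]
      exact hpos _
    · simp [link, Valid]
  | bulk j i s p =>
    have h1 := pow_le_MM hq j
    have hp1 := hpos j
    have hp2 := hpos (MM q j)
    simp only [Valid] at hc
    cases s
    · simp only [link, Bool.false_eq_true, if_false]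
      split_ifs with h2
      · exact h2
      · simp only [Valid]; omega
    · simp only [link, if_true]
      split_ifs with h2 h3
      · simp only [Valid]; omega
      · trivial
      · simp only [Valid]
        obtain ⟨k, rfl⟩ : ∃ k, j = k + 1 := ⟨j - 1, by omega⟩
        rw [pow_succ] at h2
        rw [Nat.add_sub_cancel]
        omega
  | spec j t c1 c2 c3 =>
    have h1 := pow_le_MM hq j
    have hp1 := hpos j
    have hp2 := hpos (MM q j)
    simp only [Valid] at hc
    simp only [link]
    split_ifs with h2 h3 h4 h5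
    · simp only [Valid]; omega
    · exact hc
    · exact hc
    · simp only [Valid]; omega
    · simp only [Valid]
      have h6 := pow_le_MM hq (j + 1)
      have h7 := toNat_le c2
      rw [pow_succ] at h6
      omega

lemma link_bulk_lt {q j i : ℕ} {p : Bool} (h : ¬ 2 ^ (j + 1) ≤ i) :
    link q (Cell.bulk (j + 1) i true p) = Cell.spec j (i / 2) p (b0 i) (!b0 i) := by
  simp only [link, if_true]
  rw [if_neg h, if_neg (by omega), Nat.add_sub_cancel]

lemma link_link {q : ℕ} (hq : 4 ≤ q) {c : Cell} (hc : Valid q c) : link q (link q c) = c := by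
  have hpos : ∀ k : ℕ, 0 < 2 ^ k := fun k => by positivity
  cases c with
  | init s p =>
    cases s
    · simp [link]
    · simp [link]
  | bulk j i s p =>
    have h1 := pow_le_MM hq j
    have hp1 := hpos j
    have hp2 := hpos (MM q j)
    simp only [Valid] at hc
    cases s
    · simp only [link, Bool.false_eq_true, if_false]
      split_ifs with h2
      · simp only [link, if_true]
        rw [if_pos (by omega), Nat.add_sub_cancel]
      · have h3 : i + 2 ^ j - 2 ^ MM q j + 2 ^ MM q j - 2 ^ j = i := by omega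
        simp only [link, if_true]
        cases hT : isT q j <;> cases p <;> simp [h3]
    · simp only [link, if_true]
      split_ifs with h2 h3
      · simp only [link, Bool.false_eq_true, if_false]
        rw [if_pos (by omega), Nat.sub_add_cancel h2]
      · subst h3
        have : i = 0 := by
          rw [pow_zero] at h2; omega
        subst this
        simp [link]
      · simp only [link]
        have h4 : b0 i ≠ !b0 i := by cases b0 i <;> simp
        rw [if_neg h4]
        have h5 : 2 * (i / 2) + (b0 i).toNat = i := by rw [toNat_b0]; omega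
        have h6 : j - 1 + 1 = j := by omega
        rw [h5, h6]
  | spec j t c1 c2 c3 =>
    have h1 := pow_le_MM hq j
    have hp1 := hpos j
    have hp2 := hpos (MM q j)
    simp only [Valid] at hc
    have h3 : ¬ (t + 2 ^ MM q j - 2 ^ j + 2 ^ j < 2 ^ MM q j) := by omega
    have h4 : t + 2 ^ MM q j - 2 ^ j + 2 ^ j - 2 ^ MM q j = t := by omega
    by_cases h23 : c2 = c3
    · subst h23
      cases hT : isT q j <;> cases c1 <;> cases c2 <;> simp [link, hT, h3, h4]
    · have h7 : ¬ (2 ^ (j + 1) ≤ 2 * t + c2.toNat) := by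
        have := toNat_le c2
        rw [pow_succ]
        omega
      have h8 : (2 * t + c2.toNat) / 2 = t := by
        have := toNat_le c2
        omega
      have h9 : b0 (2 * t + c2.toNat) = c2 := by
        unfold b0
        cases c2 <;> simp
      have h10 : c3 = !c2 := by cases c2 <;> cases c3 <;> simp_all
      have h11 : link q (Cell.spec j t c1 c2 c3) = Cell.bulk (j + 1) (2 * t + c2.toNat) true c1 := by
        simp only [link]
        rw [if_neg h23]
      rw [h11, link_bulk_lt h7, h8, h9, h10]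

end

end Pool.Agent.H87.Synth.Con
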