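import Mathlib
import Pool.Agent.H87.Synth.Cells

/-!
The values of `F` and `G` on cells, their behaviour under the pairing, and norm bounds for the
blocks.
-/

namespace Pool.Agent.H87.Synth.Con

noncomputable section

/-- the values `v_j` -/
def vv (q j : ℕ) : ℂ := (1 / 2) ^ aa q j
/-- the values `β_j` -/
def bb (q j : ℕ) : ℂ := (1 / 2) ^ (j - aa q j)

/-- coefficients of `f` -/
def Fc (q : ℕ) : Cell → ℂ
  | Cell.init s p => if s then 0 else sgn p
  | Cell.bulk j _ _ p => vv q j * sgn p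
  | Cell.spec j _ c1 c2 c3 =>
      if isT q j then vv q (j + 1) * (sgn c1 + (sgn c2 + sgn c3) / 2)
      else vv q (j + 1) * sgn c1

/-- coefficients of the functional -/
def Gc (q : ℕ) : Cell → ℂ
  | Cell.init s p => if s then 0 else sgn p
  | Cell.bulk j _ s p => bb q j * (sgn p * sgn s)
  | Cell.spec j _ c1 c2 c3 =>
      if isT q j then -(bb q (j + 1) * (sgn c1 * sgn c2 * sgn c3))
      else -(bb q (j + 1) / 2 * (sgn c1 * (sgn c2 + sgn c3 + 2 * sgn c2 * sgn c3)))

lemma aa_le {q : ℕ} (j : ℕ) : aa q j ≤ j := Nat.div_le_self _ _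

lemma aa_succ_T {q j : ℕ} (h : isT q j = true) : aa q (j + 1) = aa q j + 1 := by
  unfold aa
  rw [Nat.succ_div, if_pos (by simpa [isT] using h)]

lemma aa_succ_F {q j : ℕ} (h : isT q j = false) : aa q (j + 1) = aa q j := by
  unfold aa
  rw [Nat.succ_div, if_neg (by simpa [isT] using h), add_zero]

lemma vv_succ_T {q j : ℕ} (h : isT q j = true) : vv q j = 2 * vv q (j + 1) := by
  unfold vv
  rw [aa_succ_T h, pow_succ]; ring

lemma vv_succ_F {q j : ℕ} (h : isT q j = false) : vv q (j + 1) = vv q j := by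
  unfold vv
  rw [aa_succ_F h]

lemma bb_succ_T {q j : ℕ} (h : isT q j = true) : bb q (j + 1) = bb q j := by
  unfold bb
  have := aa_le (q := q) j
  rw [aa_succ_T h, Nat.add_sub_add_right]

lemma bb_succ_F {q j : ℕ} (h : isT q j = false) : bb q j = 2 * bb q (j + 1) := by
  unfold bb
  have := aa_le (q := q) j
  rw [aa_succ_F h, Nat.succ_sub this, pow_succ]; ring

lemma Fc_link (q : ℕ) (c : Cell) : Fc q (link q c) = Fc q c := by
  cases c with
  | init s p =>
    cases s
    · simp [link, Fc, vv, aa]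
    · simp [link, Fc]
  | bulk j i s p =>
    cases s
    · simp only [link, Bool.false_eq_true, if_false]
      split_ifs with h
      · simp [Fc]
      · simp only [Fc]
        cases hT : isT q j
        · simp [vv_succ_F hT]
        · simp only [if_true, Bool.true_and]
          rw [vv_succ_T hT]; ring
    · simp only [link, if_true]
      split_ifs with h h'
      · simp [Fc]
      · subst h'
        simp [Fc, vv, aa]
      · obtain ⟨k, rfl⟩ : ∃ k, j = k + 1 := ⟨j - 1, by omega⟩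
        simp only [Fc, Nat.add_sub_cancel]
        cases isT q k <;> cases b0 i <;> simp [sgn]
  | spec j t c1 c2 c3 =>
    simp only [link]
    cases hT : isT q j
    · have hv := vv_succ_F hT
      cases c1 <;> cases c2 <;> cases c3 <;> simp [Fc, hT, hv]
    · have hv := vv_succ_T hT
      cases c1 <;> cases c2 <;> cases c3 <;> simp [Fc, hT, hv, sgn] <;> ring

lemma Gc_link (q : ℕ) (c : Cell) : Gc q (link q c) = - Gc q c := by
  cases c with
  | init s p =>
    cases s
    · simp [link, Gc, bb, sgn]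
    · simp [link, Gc]
  | bulk j i s p =>
    cases s
    · simp only [link, Bool.false_eq_true, if_false]
      split_ifs with h
      · simp [Gc, sgn]
      · simp only [Gc]
        cases hT : isT q j
        · simp [bb_succ_F hT, sgn]; ring
        · simp only [if_true, Bool.true_and]
          rw [bb_succ_T hT]
          cases p <;> simp [sgn]
    · simp only [link, if_true]
      split_ifs with h h'
      · simp [Gc, sgn]
      · subst h'
        simp [Gc, bb, sgn]
      · obtain ⟨k, rfl⟩ : ∃ k, j = k + 1 := ⟨j - 1, by omega⟩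
        simp only [Gc, Nat.add_sub_cancel]
        cases isT q k <;> cases b0 i <;> simp [sgn] <;> ring
  | spec j t c1 c2 c3 =>
    simp only [link]
    cases hT : isT q j
    · have hb := bb_succ_F hT
      cases c1 <;> cases c2 <;> cases c3 <;> simp [Gc, hT, hb, sgn] <;> ring
    · have hb := bb_succ_T hT
      cases c1 <;> cases c2 <;> cases c3 <;> simp [Gc, hT, hb, sgn]

/-- values at positions -/
def Fn (q n : ℕ) : ℂ := Fc q (dec q n)
def Gn (q n : ℕ) : ℂ := Gc q (dec q n)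

/-- the constant sequence -/
def one : ℕ → ℂ := fun _ => 1
/-- the sign sequence `(-1)^n` -/
def sb : ℕ → ℂ := fun n => sgn (b0 n)

def se (e : Bool) : ℕ → ℂ := if e then sb else one
def re (e : Bool) (m : ℕ) : ℕ → ℂ := if e then (fun t => sgn (rsb false m t)) else one

lemma sb_mod (n : ℕ) : sb (n % 2) = sgn (b0 n) := by
  unfold sb b0
  rw [Nat.mod_mod]

lemma sgn_sq (b : Bool) : sgn b * sgn b = 1 := by cases b <;> simp [sgn]

lemma Fn_bulk {q j a : ℕ} (ha : a < 4 * 2 ^ MM q j) :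
    Fn q (P q j + a) = vv q j * tens 2 sb one a := by
  unfold Fn tens one
  rw [dec_bulk ha, sb_mod]
  simp [Fc]

lemma Gn_bulk {q j a : ℕ} (ha : a < 4 * 2 ^ MM q j) :
    Gn q (P q j + a) =
      bb q j * tens 2 sb (tens 2 sb (fun t => sgn (rsb false (MM q j) t))) a := by
  unfold Gn tens
  rw [dec_bulk ha, sb_mod, sb_mod]
  have h1 : b0 (a / 2) = b1 a := rfl
  have h2 : a / 2 / 2 = a / 4 := by rw [Nat.div_div_eq_div_mul]
  simp only [Gc, sgn_xor, h1, h2, rb]

/-- characters of a special window -/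
def X (q j : ℕ) (e1 e2 e3 : Bool) : ℕ → ℂ :=
  tens 2 (se e1) (tens 2 (se e2) (tens 2 (se e3) (tens (2 ^ (2 * l1 q j)) (re e1 (2 * l1 q j))
    (tens (2 ^ (2 * l2 q j)) (re e2 (2 * l2 q j))
      (tens (2 ^ (2 * l2 q j)) (re e3 (2 * l2 q j)) one)))))

lemma X_eq (q j : ℕ) (e1 e2 e3 : Bool) (a : ℕ) : X q j e1 e2 e3 a =
    (if e1 then sgn (xor (b0 a) (r1 q j (a / 8))) else 1) *
    (if e2 then sgn (xor (b1 a) (r2 q j (a / 8))) else 1) *
    (if e3 then sgn (xor (b2 a) (r3 q j (a / 8))) else 1) := by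
  unfold X tens
  have h2 : a / 2 / 2 = a / 4 := by rw [Nat.div_div_eq_div_mul]
  have h3 : a / 4 / 2 = a / 8 := by rw [Nat.div_div_eq_div_mul]
  have h4 : b0 (a / 2) = b1 a := rfl
  have h5 : b0 (a / 4) = b2 a := rfl
  rw [h2, h3]
  cases e1 <;> cases e2 <;> cases e3 <;>
    simp [se, re, one, sb_mod, sgn_xor, h4, h5, r1, r2, r3] <;> ring

lemma Fn_spec_T {q j a : ℕ} (hT : isT q j = true) (ha : a < 8 * 2 ^ j) :
    Fn q (P q j + 4 * 2 ^ MM q j + a) = vv q (j + 1) * X q j true false false a +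
      vv q (j + 1) / 2 * X q j false true false a +
      vv q (j + 1) / 2 * X q j false false true a := by
  unfold Fn
  rw [dec_spec ha]
  simp only [Fc, hT, X_eq, if_true, Bool.false_eq_true, if_false]
  ring

lemma Fn_spec_F {q j a : ℕ} (hT : isT q j = false) (ha : a < 8 * 2 ^ j) :
    Fn q (P q j + 4 * 2 ^ MM q j + a) = vv q (j + 1) * X q j true false false a := by
  unfold Fn
  rw [dec_spec ha]
  simp only [Fc, hT, X_eq, if_true, Bool.false_eq_true, if_false]
  ring

lemma Gn_spec_T {q j a : ℕ} (hT : isT q j = true) (ha : a < 8 * 2 ^ j) :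
    Gn q (P q j + 4 * 2 ^ MM q j + a) = -bb q (j + 1) * X q j true true true a := by
  unfold Gn
  rw [dec_spec ha]
  simp only [Gc, hT, X_eq, if_true]
  ring

lemma Gn_spec_F {q j a : ℕ} (hT : isT q j = false) (ha : a < 8 * 2 ^ j) :
    Gn q (P q j + 4 * 2 ^ MM q j + a) = -bb q (j + 1) / 2 * X q j true true false a +
      -bb q (j + 1) / 2 * X q j true false true a +
      -bb q (j + 1) * X q j true true true a := by
  unfold Gn
  rw [dec_spec ha]
  simp only [Gc, hT, X_eq, if_true, Bool.false_eq_true, if_false]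
  ring

/-! ### Norm bounds -/

lemma Ev_add (A : ℕ) (u v : ℕ → ℂ) (z : ℂ) :
    Ev A (fun n => u n + v n) z = Ev A u z + Ev A v z := by
  unfold Ev
  rw [← Finset.sum_add_distrib]
  exact Finset.sum_congr rfl fun _ _ => by ring

lemma Ev_smul (A : ℕ) (c : ℂ) (u : ℕ → ℂ) (z : ℂ) :
    Ev A (fun n => c * u n) z = c * Ev A u z := by
  unfold Ev
  rw [Finset.mul_sum]
  exact Finset.sum_congr rfl fun _ _ => by ring

lemma Ev_congr {A : ℕ} {u v : ℕ → ℂ} (h : ∀ a < A, u a = v a) (z : ℂ) : Ev A u z = Ev A v z := by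
  unfold Ev
  exact Finset.sum_congr rfl fun a ha => by rw [h a (Finset.mem_range.1 ha)]

lemma SN_add {A : ℕ} {u v : ℕ → ℂ} {K K' : ℝ} (h : SN A u K) (h' : SN A v K') :
    SN A (fun n => u n + v n) (K + K') := by
  intro z hz
  rw [Ev_add]
  exact (norm_add_le _ _).trans (add_le_add (h z hz) (h' z hz))

lemma SN_smul {A : ℕ} {u : ℕ → ℂ} {K : ℝ} (c : ℂ) (h : SN A u K) :
    SN A (fun n => c * u n) (‖c‖ * K) := by
  intro z hz
  rw [Ev_smul, norm_mul]
  exact mul_le_mul_of_nonneg_left (h z hz) (norm_nonneg _)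

lemma SN_congr {A : ℕ} {u v : ℕ → ℂ} {K : ℝ} (hu : ∀ a < A, u a = v a) (h : SN A v K) :
    SN A u K := by
  intro z hz
  rw [Ev_congr hu]
  exact h z hz

lemma GN_add {A : ℕ} {u v : ℕ → ℂ} {K K' : ℝ} (h : GN A u K) (h' : GN A v K') :
    GN A (fun n => u n + v n) (K + K') := by
  intro z hz
  simp only [Ev_add]
  calc ∑ k ∈ Finset.range A, ‖Ev A u (z * ze A ^ k) + Ev A v (z * ze A ^ k)‖
      ≤ ∑ k ∈ Finset.range A, (‖Ev A u (z * ze A ^ k)‖ + ‖Ev A v (z * ze A ^ k)‖) :=
        Finset.sum_le_sum fun _ _ => norm_add_le _ _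
    _ ≤ A * K + A * K' := by
        rw [Finset.sum_add_distrib]; exact add_le_add (h z hz) (h' z hz)
    _ = _ := by ring

lemma GN_smul {A : ℕ} {u : ℕ → ℂ} {K : ℝ} (c : ℂ) (h : GN A u K) :
    GN A (fun n => c * u n) (‖c‖ * K) := by
  intro z hz
  simp only [Ev_smul, norm_mul]
  rw [← Finset.mul_sum]
  calc ‖c‖ * ∑ k ∈ Finset.range A, ‖Ev A u (z * ze A ^ k)‖ ≤ ‖c‖ * (A * K) :=
        mul_le_mul_of_nonneg_left (h z hz) (norm_nonneg _)
    _ = _ := by ring

lemma GN_congr {A : ℕ} {u v : ℕ → ℂ} {K : ℝ} (hu : ∀ a < A, u a = v a) (h : GN A v K) :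
    GN A u K := by
  intro z hz
  simp only [Ev_congr hu]
  exact h z hz

lemma SN_se (e : Bool) : SN 2 (se e) 2 := by
  intro z hz
  unfold Ev
  rw [Finset.sum_range_succ, Finset.sum_range_one]
  refine (norm_add_le _ _).trans ?_
  rw [norm_mul, norm_mul, norm_pow, norm_pow, hz]
  have h : ∀ n, ‖se e n‖ = 1 := by
    intro n
    cases e <;> simp [se, one, sb, norm_sgn]
  rw [h, h]; norm_num

lemma GN_se (e : Bool) : GN 2 (se e) 2 := (SN_se e).gn

/-- grid constants -/
def gk (e : Bool) (l : ℕ) : ℝ := if e then 2 * 2 ^ l else 2 * (2 * l + 1)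
/-- sup constants -/
def sk (e : Bool) (l : ℕ) : ℝ := if e then 2 * 2 ^ l else 2 ^ (2 * l)

lemma GN_re (e : Bool) (l : ℕ) : GN (2 ^ (2 * l)) (re e (2 * l)) (gk e l) := by
  cases e
  · have := GN_one (2 * l)
    simp only [re, gk, Bool.false_eq_true, if_false]
    push_cast at this
    exact this
  · simp only [re, gk, if_true]
    exact (SN_rs l).gn

lemma SN_re (e : Bool) (l : ℕ) : SN (2 ^ (2 * l)) (re e (2 * l)) (sk e l) := by
  cases e
  · have := SN_one (2 ^ (2 * l))
    simp only [re, sk, Bool.false_eq_true, if_false]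
    push_cast at this
    exact this
  · simp only [re, sk, if_true]
    exact SN_rs l

/-- remaining digits -/
def rest (q j : ℕ) : ℕ := j - (2 * l1 q j + 4 * l2 q j)

lemma ll_le {q : ℕ} (hq : 6 ≤ q) (j : ℕ) : 12 * ll q j ≤ j := by
  unfold ll
  have h1 : j / (2 * q) * (2 * q) ≤ j := Nat.div_mul_le_self j _
  have h2 : j / (2 * q) * 12 ≤ j / (2 * q) * (2 * q) := Nat.mul_le_mul_left _ (by omega)
  omega

lemma rest_eq {q : ℕ} (hq : 6 ≤ q) (j : ℕ) : 2 * l1 q j + 4 * l2 q j + rest q j = j := by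
  have h := ll_le hq j
  unfold rest l1 l2
  split_ifs <;> omega

lemma length_eq {q : ℕ} (hq : 6 ≤ q) (j : ℕ) :
    2 * (2 * (2 * (2 ^ (2 * l1 q j) * (2 ^ (2 * l2 q j) * (2 ^ (2 * l2 q j) * 2 ^ rest q j))))) =
      8 * 2 ^ j := by
  have h := rest_eq hq j
  conv_rhs => rw [← h]
  rw [pow_add, pow_add]
  have : 4 * l2 q j = 2 * l2 q j + 2 * l2 q j := by ring
  rw [this, pow_add]
  ring

lemma GN_X {q : ℕ} (hq : 6 ≤ q) (j : ℕ) (e1 e2 e3 : Bool) :
    GN (8 * 2 ^ j) (X q j e1 e2 e3) (2 * (2 * (2 * (gk e1 (l1 q j) * (gk e2 (l2 q j) *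
      (gk e3 (l2 q j) * (2 * (rest q j + 1)))))))) := by
  rw [← length_eq hq j]
  have hp : ∀ k : ℕ, 0 < 2 ^ k := fun k => by positivity
  unfold X
  refine GN.tens (by norm_num) (by have := hp; positivity) (GN_se e1) ?_
  refine GN.tens (by norm_num) (by have := hp; positivity) (GN_se e2) ?_
  refine GN.tens (by norm_num) (by have := hp; positivity) (GN_se e3) ?_
  refine GN.tens (hp _) (by positivity) (GN_re e1 _) ?_
  refine GN.tens (hp _) (by positivity) (GN_re e2 _) ?_
  refine GN.tens (hp _) (by positivity) (GN_re e3 _) ?_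
  exact GN_one _

lemma SN_X {q : ℕ} (hq : 6 ≤ q) (j : ℕ) (e1 e2 e3 : Bool) :
    SN (8 * 2 ^ j) (X q j e1 e2 e3) (2 * (2 * (2 * (sk e1 (l1 q j) * (sk e2 (l2 q j) *
      (sk e3 (l2 q j) * 2 ^ rest q j)))))) := by
  rw [← length_eq hq j]
  have hp : ∀ k : ℕ, 0 < 2 ^ k := fun k => by positivity
  unfold X
  refine SN.tens (by norm_num) (SN_se e1) ?_
  refine SN.tens (by norm_num) (SN_se e2) ?_
  refine SN.tens (by norm_num) (SN_se e3) ?_
  refine SN.tens (hp _) (SN_re e1 _) ?_
  refine SN.tens (hp _) (SN_re e2 _) ?_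
  refine SN.tens (hp _) (SN_re e3 _) ?_
  have := SN_one (2 ^ rest q j)
  push_cast at this
  exact this

lemma Ev_se_one : Ev 2 (se true) 1 = 0 := by
  unfold Ev
  rw [Finset.sum_range_succ, Finset.sum_range_one]
  simp [se, sb, b0, sgn]

lemma Ev_X_one {q : ℕ} (hq : 6 ≤ q) (j : ℕ) (e1 e2 e3 : Bool)
    (he : e1 = true ∨ e2 = true ∨ e3 = true) : Ev (8 * 2 ^ j) (X q j e1 e2 e3) 1 = 0 := by
  rw [← length_eq hq j]
  unfold X
  rw [Ev_tens _ (by norm_num), Ev_tens _ (by norm_num), Ev_tens _ (by norm_num)]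
  simp only [one_pow]
  rcases he with rfl | rfl | rfl <;> rw [Ev_se_one] <;> ring

end

end Pool.Agent.H87.Synth.Con
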