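import Mathlib
import Pool.Agent.H87.Synth.Key

/-!
Failure of the synthesis property: an abstract criterion and its version for relations given by an
involution.
-/

open MeasureTheory AddCircle

namespace Pool.Agent.H87.Synth

noncomputable section

/-- The largest closed subalgebra whose elements have coefficients constant on the classes. -/
def Amax (r : Setoid ℤ) : Submodule ℂ L1 where
  carrier := {f | ∀ m n, r m n → coeff f m = coeff f n}
  add_mem' := by
    intro f g hf hg m n h
    rw [coeff_add, coeff_add, hf m n h, hg m n h]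
  zero_mem' := by
    intro m n _
    rw [coeff_zero, coeff_zero]
  smul_mem' := by
    intro c f hf m n h
    rw [coeff_smul, coeff_smul, hf m n h]

lemma mem_Amax {r : Setoid ℤ} {f : L1} :
    f ∈ Amax r ↔ ∀ m n, r m n → coeff f m = coeff f n := Iff.rfl

lemma isClosedSubalgebra_Amax (r : Setoid ℤ) : IsClosedSubalgebra (Amax r) := by
  constructor
  · have : (Amax r : Set L1) = ⋂ m, ⋂ n, ⋂ (_ : r m n), {f | coeffL m f = coeffL n f} := by
      ext f
      simp only [Set.mem_iInter, Set.mem_ofPred_eq, coeffL_apply]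
      exact mem_Amax
    rw [this]
    exact isClosed_iInter fun m => isClosed_iInter fun n => isClosed_iInter fun _ =>
      isClosed_eq (coeffL m).continuous (coeffL n).continuous
  · intro f hf g hg h hh m n hmn
    rw [(isConv_iff f g h).1 hh, coeff_conv, coeff_conv, hf m n hmn, hg m n hmn]

lemma eS_mem_Amax {r : Setoid ℤ} {S : Finset ℤ} {n₀ : ℤ} (hS : ∀ n, n ∈ S ↔ r n₀ n) :
    eS S ∈ Amax r := by
  intro m n hmn
  rw [coeff_eS, coeff_eS]
  have : m ∈ S ↔ n ∈ S := by
    rw [hS, hS]
    exact ⟨fun h => r.trans h hmn, fun h => r.trans h (r.symm hmn)⟩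
  simp only [this]

/-- Convolution with a fixed function as a continuous linear map. -/
def convL (h : L1) : L1 →L[ℂ] L1 :=
  LinearMap.mkContinuous
    { toFun := fun g => conv g h
      map_add' := fun f g => by
        apply ext_coeff; intro n
        rw [coeff_conv, coeff_add, coeff_add, coeff_conv, coeff_conv]; ring
      map_smul' := fun c f => by
        apply ext_coeff; intro n
        rw [coeff_conv, coeff_smul, RingHom.id_apply, coeff_smul, coeff_conv]; ring } ‖h‖
    (fun g => by
      exact (norm_conv_le g h).trans (le_of_eq (mul_comm _ _)))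

lemma convL_apply (g h : L1) : convL h g = conv g h := rfl

/-- The criterion: `Φ` kills the idempotents of the classes, `f` has coefficients constant on the
classes, and `Φ f ≠ 0`. -/
theorem not_synthesis (r : Setoid ℤ) (hfin : ∀ n, {m | r n m}.Finite) (Φ : L1 →L[ℂ] ℂ)
    (hΦ : ∀ (S : Finset ℤ) (n₀ : ℤ), (∀ n, n ∈ S ↔ r n₀ n) → Φ (eS S) = 0)
    (f : L1) (hf : f ∈ Amax r) (hne : Φ f ≠ 0) : ¬ HasSynthesis r := by
  classical
  intro H
  -- the Rudin relation of the maximal algebra
  have hrel : ∀ m n, RudinRel (Amax r) m n ↔ r m n := by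
    intro m n
    constructor
    · intro h
      have hS : ∀ k, k ∈ (hfin m).toFinset ↔ r m k := fun k => by simp
      have h1 := h _ (eS_mem_Amax hS)
      change coeff _ m = coeff _ n at h1
      rw [coeff_eS, coeff_eS, if_pos ((hS m).2 (r.refl m))] at h1
      by_contra hmn
      rw [if_neg (fun h' => hmn ((hS n).1 h'))] at h1
      exact one_ne_zero h1
    · intro h g hg
      exact hg m n h
  -- `Φ` kills all class-constant trigonometric polynomials
  have hpoly : ∀ c : ℤ →₀ ℂ, (∀ m n, r m n → c m = c n) →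
      Φ (Finsupp.linearCombination ℂ ex c) = 0 := by
    intro c hc
    have := linComb_mem r (LinearMap.ker Φ.toLinearMap) ∅ (fun S n₀ _ hS => by
      rw [LinearMap.mem_ker]
      exact hΦ S n₀ hS) _ c rfl hc (by simp)
    rw [LinearMap.mem_ker] at this
    exact this
  -- the annihilator subalgebra
  let B : Submodule ℂ L1 :=
    { carrier := {g | g ∈ Amax r ∧ Φ g = 0 ∧ ∀ h ∈ Amax r, Φ (conv g h) = 0}
      add_mem' := by
        rintro g₁ g₂ ⟨h1, h2, h3⟩ ⟨k1, k2, k3⟩
        refine ⟨(Amax r).add_mem h1 k1, by rw [map_add, h2, k2, add_zero], fun h hh => ?_⟩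
        rw [← convL_apply, map_add, map_add, convL_apply, convL_apply, h3 h hh, k3 h hh, add_zero]
      zero_mem' := by
        refine ⟨(Amax r).zero_mem, map_zero _, fun h _ => ?_⟩
        rw [← convL_apply, map_zero, map_zero]
      smul_mem' := by
        rintro c g ⟨h1, h2, h3⟩
        refine ⟨(Amax r).smul_mem c h1, by rw [map_smul, h2, smul_zero], fun h hh => ?_⟩
        rw [← convL_apply, map_smul, map_smul, convL_apply, h3 h hh, smul_zero] }
  have hB : IsClosedSubalgebra B := by
    constructor
    · have : (B : Set L1) = (Amax r : Set L1) ∩ {g | Φ g = 0} ∩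
          ⋂ h, ⋂ (_ : h ∈ Amax r), {g | Φ (convL h g) = 0} := by
        ext g
        simp only [Set.mem_inter_iff, Set.mem_iInter, Set.mem_ofPred_eq, convL_apply]
        exact ⟨fun h => ⟨⟨h.1, h.2.1⟩, h.2.2⟩, fun h => ⟨h.1.1, h.1.2, h.2⟩⟩
      rw [this]
      refine ((isClosedSubalgebra_Amax r).1.inter
        (isClosed_eq Φ.continuous continuous_const)).inter ?_
      exact isClosed_iInter fun h => isClosed_iInter fun _ =>
        isClosed_eq (Φ.continuous.comp (convL h).continuous) continuous_const
    · rintro g₁ ⟨h1, h2, h3⟩ g₂ ⟨k1, k2, k3⟩ g hg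
      rw [isConv_iff] at hg
      subst hg
      refine ⟨(isClosedSubalgebra_Amax r).2 _ h1 _ k1 _ (isConv_conv _ _), h3 g₂ k1,
        fun h hh => ?_⟩
      have : conv (conv g₁ g₂) h = conv g₁ (conv g₂ h) := by
        apply ext_coeff; intro n
        simp only [coeff_conv]; ring
      rw [this]
      exact h3 _ ((isClosedSubalgebra_Amax r).2 _ k1 _ hh _ (isConv_conv _ _))
  -- it contains the idempotents
  have hidem : ∀ e ∈ Amax r, IsConv e e e → e ∈ B := by
    intro e he hee
    have hcoef : ∀ n, coeff e n = 0 ∨ coeff e n = 1 := by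
      intro n
      have h1 : coeff e n = coeff e n * coeff e n := by
        conv_lhs => rw [(isConv_iff e e e).1 hee]
        rw [coeff_conv]
      by_cases h0 : coeff e n = 0
      · exact Or.inl h0
      · right
        exact mul_left_cancel₀ h0 (by rw [← h1, mul_one])
    have hTfin : {n | coeff e n = 1}.Finite := by
      by_contra hinf
      obtain ⟨n, hn⟩ := (Set.not_finite.1 hinf).nonempty
      have h0 := coeff_eq_zero_of_infinite e n _ hinf fun m hm => by
        have h1 : coeff e n = 1 := hn
        have h2 : coeff e m = 1 := hm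
        rw [h1, h2]
      have h1 : coeff e n = 1 := hn
      rw [h1] at h0
      exact one_ne_zero h0
    -- a combination with coefficients `coeff e * coeff h`
    have key : ∀ h ∈ Amax r, Φ (conv e h) = 0 := by
      intro h hh
      let c : ℤ →₀ ℂ := Finsupp.onFinset hTfin.toFinset (fun n => coeff e n * coeff h n)
        (fun n hn => by
          rw [Set.Finite.mem_toFinset]
          rcases hcoef n with h0 | h1
          · rw [h0, zero_mul] at hn; exact absurd rfl hn
          · exact h1)
      have hc : conv e h = Finsupp.linearCombination ℂ ex c := by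
        apply ext_coeff; intro n
        rw [coeff_conv, coeff_linComb]; rfl
      rw [hc]
      refine hpoly c fun m n hmn => ?_
      change coeff e m * coeff h m = coeff e n * coeff h n
      rw [he m n hmn, hh m n hmn]
    refine ⟨he, ?_, key⟩
    have : e = conv e e := (isConv_iff e e e).1 hee
    rw [this]
    exact key e he
  exact hne ((H (Amax r) (isClosedSubalgebra_Amax r) hrel B hB hidem hf).2.1)

/-- The relation whose classes are the orbits of an involution. -/
def orbit (π : ℤ → ℤ) (hπ : ∀ n, π (π n) = n) : Setoid ℤ where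
  r m n := n = m ∨ n = π m
  iseqv := by
    constructor
    · intro m; exact Or.inl rfl
    · rintro m n (h | h)
      · exact Or.inl h.symm
      · right; rw [h, hπ]
    · rintro m n k (h | h) (h' | h')
      · left; rw [h', h]
      · right; rw [h', h]
      · right; rw [h', h]
      · left; rw [h', h, hπ]

lemma norm_functional_le (s : Finset ℤ) (w : ℤ → ℂ) (b : ℝ)
    (hb : ∀ x : Circ, ‖∑ n ∈ s, w n * (fourier (-n) x : ℂ)‖ ≤ b) (g : L1) :
    ‖∑ n ∈ s, w n * coeff g n‖ ≤ b * ‖g‖ := by
  have h1 : ∑ n ∈ s, w n * coeff g n =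
      ∫ x, (∑ n ∈ s, w n * (fourier (-n) x : ℂ)) * (g : Circ → ℂ) x ∂haarAddCircle := by
    have h2 : ∀ x : Circ, (∑ n ∈ s, w n * (fourier (-n) x : ℂ)) * (g : Circ → ℂ) x =
        ∑ n ∈ s, w n * ((fourier (-n) x : ℂ) * (g : Circ → ℂ) x) := by
      intro x
      rw [Finset.sum_mul]
      exact Finset.sum_congr rfl fun n _ => by ring
    simp_rw [h2]
    rw [integral_finsetSum]
    · refine Finset.sum_congr rfl fun n _ => ?_
      rw [coeff_def, integral_const_mul]
    · intro n _
      have : Integrable (fun x => (fourier (-n) x : ℂ) * (g : Circ → ℂ) x) haarAddCircle := by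
        simpa [smul_eq_mul] using (integrable_coe g).fourier_smul (-n)
      exact this.const_mul _
  rw [h1, norm_eq, ← integral_const_mul]
  refine (norm_integral_le_integral_norm _).trans ?_
  refine integral_mono_of_nonneg (Filter.Eventually.of_forall fun x => norm_nonneg _) ?_
    (Filter.Eventually.of_forall fun x => ?_)
  · exact (integrable_coe g).norm.const_mul _
  · simp only [norm_mul]
    exact mul_le_mul_of_nonneg_right (hb x) (norm_nonneg _)

/-- No synthesis for the orbit relation of an involution: blockwise criterion. -/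
theorem not_synthesis_orbit (π : ℤ → ℤ) (hπ : ∀ n, π (π n) = n) (F G : ℤ → ℂ)
    (hF : ∀ n, F (π n) = F n) (hG : ∀ n, G (π n) = - G n)
    (I : ℕ → Finset ℤ) (hI : ∀ i j, i ≠ j → Disjoint (I i) (I j))
    (hcov : ∀ n, (∀ i, n ∉ I i) → F n = 0 ∧ G n = 0) (a b : ℕ → ℝ)
    (ha : Summable a) (hb : Summable b)
    (hFa : ∀ i, ‖(∑ n ∈ I i, F n • ex n : L1)‖ ≤ a i)
    (hGb : ∀ i, ∀ x : Circ, ‖∑ n ∈ I i, G n * (fourier (-n) x : ℂ)‖ ≤ b i)
    (h0 : ∑ n ∈ I 0, F n * G n ≠ 0) (hs : ∀ i, i ≠ 0 → ∑ n ∈ I i, F n * G n = 0) :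
    ¬ HasSynthesis (orbit π hπ) := by
  classical
  -- the function
  have hfs : Summable (fun i => (∑ n ∈ I i, F n • ex n : L1)) :=
    Summable.of_norm_bounded ha hFa
  let f : L1 := ∑' i, ∑ n ∈ I i, F n • ex n
  -- the functional
  let Φ₀ : ℕ → (L1 →L[ℂ] ℂ) := fun i => ∑ n ∈ I i, G n • coeffL n
  have hΦ₀a : ∀ i g, Φ₀ i g = ∑ n ∈ I i, G n * coeff g n := by
    intro i g
    simp only [Φ₀, sum_apply, smul_apply, coeffL_apply,
      smul_eq_mul]
  have hΦ₀ : ∀ i, ‖Φ₀ i‖ ≤ b i := by
    intro i
    refine ContinuousLinearMap.opNorm_le_bound _ ((norm_nonneg _).trans (hGb i 0)) fun g => ?_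
    rw [hΦ₀a]
    exact norm_functional_le _ _ _ (hGb i) g
  have hΦs : Summable Φ₀ := Summable.of_norm_bounded hb hΦ₀
  let Φ : L1 →L[ℂ] ℂ := ∑' i, Φ₀ i
  have hΦa : ∀ g, Φ g = ∑' i, Φ₀ i g := by
    intro g
    exact ((ContinuousLinearMap.apply ℂ ℂ g).map_tsum hΦs)
  -- coefficients of `f`
  have hblock : ∀ i n, coeff (∑ n ∈ I i, F n • ex n) n = if n ∈ I i then F n else 0 := by
    intro i n
    rw [coeff_sum]
    simp only [coeff_smul, coeff_ex, mul_ite, mul_one, mul_zero, Finset.sum_ite_eq']
  have hcf : ∀ n, coeff f n = F n := by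
    intro n
    rw [← coeffL_apply]
    rw [(coeffL n).map_tsum hfs]
    simp only [coeffL_apply, hblock]
    by_cases h : ∃ i, n ∈ I i
    · obtain ⟨i, hi⟩ := h
      rw [tsum_eq_single i, if_pos hi]
      intro j hj
      rw [if_neg]
      intro hj'
      exact (Finset.disjoint_left.1 (hI j i hj)) hj' hi
    · push Not at h
      rw [(hcov n h).1]
      simp [h]
  have hΦex : ∀ n, Φ (ex n) = G n := by
    intro n
    rw [hΦa]
    have : ∀ i, Φ₀ i (ex n) = if n ∈ I i then G n else 0 := by
      intro i
      rw [hΦ₀a]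
      simp only [coeff_ex, mul_ite, mul_one, mul_zero, Finset.sum_ite_eq]
    simp only [this]
    by_cases h : ∃ i, n ∈ I i
    · obtain ⟨i, hi⟩ := h
      rw [tsum_eq_single i, if_pos hi]
      intro j hj
      rw [if_neg]
      intro hj'
      exact (Finset.disjoint_left.1 (hI j i hj)) hj' hi
    · push Not at h
      rw [(hcov n h).2]
      simp [h]
  have hΦf : Φ f = ∑ n ∈ I 0, F n * G n := by
    rw [show f = ∑' i, ∑ n ∈ I i, F n • ex n from rfl, Φ.map_tsum hfs]
    have : ∀ i, Φ (∑ n ∈ I i, F n • ex n) = ∑ n ∈ I i, F n * G n := by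
      intro i
      rw [map_sum]
      exact Finset.sum_congr rfl fun n _ => by rw [map_smul, hΦex, smul_eq_mul]
    simp only [this]
    exact tsum_eq_single 0 hs
  refine not_synthesis (orbit π hπ) ?_ Φ ?_ f ?_ ?_
  · intro n
    refine (Set.toFinite ({n, π n} : Set ℤ)).subset ?_
    rintro m (h | h)
    · left; exact h
    · right; exact h
  · intro S n₀ hS
    have hSe : S = {n₀, π n₀} := by
      ext m
      rw [hS, Finset.mem_insert, Finset.mem_singleton]
      exact Iff.rfl
    rw [hSe, eS]
    by_cases h : n₀ = π n₀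
    · rw [← h, Finset.pair_eq_singleton, Finset.sum_singleton, hΦex]
      have := hG n₀
      rw [← h] at this
      have h2 : (2 : ℂ) * G n₀ = 0 := by linear_combination this
      exact (mul_eq_zero.1 h2).resolve_left two_ne_zero
    · rw [Finset.sum_pair h, map_add, hΦex, hΦex, hG]
      ring
  · rintro m n (h | h)
    · rw [h]
    · rw [h, hcf, hcf, hF]
  · rw [hΦf]; exact h0

end

end Pool.Agent.H87.Synth
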