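import Mathlib
import Pool.Agent.H87.Synth.Neg
import Pool.Agent.H87.Synth.Vals

/-!
The final assembly of the counterexample: relations with classes of at most two elements and
`|m - n| ≤ 48 (1 + min |m| |n|)^α`, `α > 1/2`, without the synthesis property.
-/

open MeasureTheory AddCircle

namespace Pool.Agent.H87.Synth.Con

noncomputable section

/-! ### Numerical facts -/

lemma ll_eq (q j : ℕ) : ll q j = aa q j / 2 := by
  unfold ll aa
  rw [Nat.div_div_eq_div_mul, mul_comm]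

lemma norm_vv (q j : ℕ) : ‖vv q j‖ = (1 / 2 : ℝ) ^ aa q j := by
  unfold vv
  rw [norm_pow]; norm_num

lemma norm_bb (q j : ℕ) : ‖bb q j‖ = (1 / 2 : ℝ) ^ (j - aa q j) := by
  unfold bb
  rw [norm_pow]; norm_num

lemma half_pow_le {m n : ℕ} (h : m ≤ n) : (1 / 2 : ℝ) ^ n ≤ (1 / 2 : ℝ) ^ m :=
  pow_le_pow_of_le_one (by norm_num) (by norm_num) h

lemma half_mul (m n k : ℕ) (h : n + k ≤ m) : (1 / 2 : ℝ) ^ m * 2 ^ n ≤ (1 / 2 : ℝ) ^ k := by
  have h1 : (1 / 2 : ℝ) ^ m ≤ (1 / 2 : ℝ) ^ (n + k) := half_pow_le h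
  calc (1 / 2 : ℝ) ^ m * 2 ^ n ≤ (1 / 2 : ℝ) ^ (n + k) * 2 ^ n := by gcongr
    _ = (1 / 2 : ℝ) ^ k := by
        rw [pow_add, mul_right_comm, ← mul_pow]; norm_num

lemma half_mul' (m n k : ℕ) (h : n + k ≤ m + 1) :
    (1 / 2 : ℝ) ^ m * 2 ^ n ≤ 2 * (1 / 2 : ℝ) ^ k := by
  have h1 := half_mul (m + 1) n k h
  rw [pow_succ] at h1
  linarith

lemma norm_vv_succ_le (q j : ℕ) : ‖vv q (j + 1)‖ ≤ (1 / 2 : ℝ) ^ aa q j := by
  rw [norm_vv]
  refine half_pow_le ?_
  unfold aa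
  exact Nat.div_le_div_right (Nat.le_succ j)

/-! ### Block bounds -/

lemma GN_bulk (q j : ℕ) : GN (4 * 2 ^ MM q j) (fun a => Fn q (P q j + a))
    (8 * (j + 1) * (1 / 2 : ℝ) ^ ll q j) := by
  have h1 : GN (2 * 2 ^ (MM q j + 1)) (tens 2 sb one) (2 * (2 * (((MM q j + 1 : ℕ) : ℝ) + 1))) :=
    GN.tens (by norm_num) (by positivity) (GN_se true) (GN_one _)
  have h2 : 2 * 2 ^ (MM q j + 1) = 4 * 2 ^ MM q j := by rw [pow_succ]; ring
  rw [h2] at h1
  refine (GN_congr (fun a ha => Fn_bulk ha) (GN_smul (vv q j) h1)).mono ?_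
  rw [norm_vv]
  have h3 : (MM q j : ℝ) ≤ 2 * j := by
    have : MM q j ≤ 2 * j := by unfold MM; omega
    exact_mod_cast this
  have h4 : (1 / 2 : ℝ) ^ aa q j ≤ (1 / 2 : ℝ) ^ ll q j := half_pow_le (by rw [ll_eq]; omega)
  push_cast
  calc (1 / 2 : ℝ) ^ aa q j * (2 * (2 * ((MM q j : ℝ) + 1 + 1)))
      ≤ (1 / 2 : ℝ) ^ ll q j * (2 * (2 * (2 * (j : ℝ) + 1 + 1))) := by gcongr
    _ = _ := by ring

lemma SN_bulk {q : ℕ} (hq : 4 ≤ q) (j : ℕ) : SN (4 * 2 ^ MM q j) (fun a => Gn q (P q j + a))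
    (8 * (1 / 2 : ℝ) ^ ll q j) := by
  have h1 : SN (2 * (2 * 2 ^ MM q j))
      (tens 2 sb (tens 2 sb (fun t => sgn (rsb false (MM q j) t))))
      (2 * (2 * (2 * 2 ^ (j - 2 * aa q j)))) :=
    SN.tens (by norm_num) (SN_se true) (SN.tens (by norm_num) (SN_se true) (SN_rs _))
  have h2 : 2 * (2 * 2 ^ MM q j) = 4 * 2 ^ MM q j := by ring
  rw [h2] at h1
  refine (SN_congr (fun a ha => Gn_bulk ha) (SN_smul (bb q j) h1)).mono ?_
  rw [norm_bb]
  have h3 := two_aa_le hq j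
  have h4 := half_mul (j - aa q j) (j - 2 * aa q j) (ll q j) (by rw [ll_eq]; omega)
  linarith

lemma gk_true_le {l L : ℕ} (h : l ≤ L) : gk true l ≤ 2 * 2 ^ L := by
  unfold gk
  rw [if_pos rfl]
  have : (2 : ℝ) ^ l ≤ 2 ^ L := pow_le_pow_right₀ (by norm_num) h
  linarith

lemma gk_false_le {l j : ℕ} (h : 2 * l ≤ j) : gk false l ≤ 2 * (j + 1) := by
  unfold gk
  rw [if_neg (by simp)]
  have : (2 * (l : ℝ)) ≤ j := by exact_mod_cast h
  linarith

lemma gk_nonneg (e : Bool) (l : ℕ) : 0 ≤ gk e l := by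
  unfold gk
  split_ifs <;> positivity

lemma prod_bound {a b c d J L : ℝ} (ha : a ≤ 2 * L) (hb : b ≤ 2 * J) (hc : c ≤ 2 * J)
    (hd : d ≤ 2 * J) (ha0 : 0 ≤ a) (hb0 : 0 ≤ b) (hc0 : 0 ≤ c) (hd0 : 0 ≤ d) :
    2 * (2 * (2 * (a * (b * (c * d))))) ≤ 128 * L * J ^ 3 := by
  have hL : 0 ≤ 2 * L := ha0.trans ha
  have hJ : 0 ≤ 2 * J := hb0.trans hb
  have h1 : a * (b * (c * d)) ≤ 2 * L * (2 * J * (2 * J * (2 * J))) := by gcongr
  nlinarith

lemma GN_X_le {q : ℕ} (hq : 6 ≤ q) (j : ℕ) (e1 e2 e3 : Bool)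
    (he : (e1 = true ∧ e2 = false ∧ e3 = false) ∨
      (isT q j = true ∧ ((e1 = false ∧ e2 = true ∧ e3 = false) ∨
        (e1 = false ∧ e2 = false ∧ e3 = true)))) :
    GN (8 * 2 ^ j) (X q j e1 e2 e3) (128 * 2 ^ ll q j * ((j : ℝ) + 1) ^ 3) := by
  refine (GN_X hq j e1 e2 e3).mono ?_
  have hr := rest_eq hq j
  have hL := ll_le hq j
  have hr' : (2 : ℝ) * (rest q j + 1) ≤ 2 * ((j : ℝ) + 1) := by
    have : (rest q j : ℝ) ≤ j := by
      have : rest q j ≤ j := by omega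
      exact_mod_cast this
    linarith
  have hr0 : (0 : ℝ) ≤ 2 * (rest q j + 1) := by positivity
  have hl1 : l1 q j ≤ ll q j := by unfold l1; split_ifs <;> omega
  rcases he with ⟨rfl, rfl, rfl⟩ | ⟨hT, h⟩
  · exact prod_bound (gk_true_le hl1) (gk_false_le (by omega)) (gk_false_le (by omega)) hr'
      (gk_nonneg _ _) (gk_nonneg _ _) (gk_nonneg _ _) hr0
  · have hl2 : l2 q j ≤ ll q j := by unfold l2; rw [if_pos hT]
    rcases h with ⟨rfl, rfl, rfl⟩ | ⟨rfl, rfl, rfl⟩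
    · have := prod_bound (gk_true_le hl2) (gk_false_le (l := l1 q j) (j := j) (by omega))
        (gk_false_le (l := l2 q j) (j := j) (by omega)) hr'
        (gk_nonneg _ _) (gk_nonneg _ _) (gk_nonneg _ _) hr0
      refine le_trans (le_of_eq ?_) this
      ring
    · have := prod_bound (gk_true_le hl2) (gk_false_le (l := l1 q j) (j := j) (by omega))
        (gk_false_le (l := l2 q j) (j := j) (by omega)) hr'
        (gk_nonneg _ _) (gk_nonneg _ _) (gk_nonneg _ _) hr0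
      refine le_trans (le_of_eq ?_) this
      ring

lemma GN_spec {q : ℕ} (hq : 6 ≤ q) (j : ℕ) :
    GN (8 * 2 ^ j) (fun a => Fn q (P q j + 4 * 2 ^ MM q j + a))
      (256 * (j + 1) ^ 3 * (1 / 2 : ℝ) ^ ll q j) := by
  set K : ℝ := 128 * 2 ^ ll q j * ((j : ℝ) + 1) ^ 3 with hK
  have hK0 : 0 ≤ K := by positivity
  have hv := norm_vv_succ_le q j
  have hfin : (1 / 2 : ℝ) ^ aa q j * (2 * K) ≤ 256 * (j + 1) ^ 3 * (1 / 2 : ℝ) ^ ll q j := by
    have h1 := half_mul (aa q j) (ll q j) (ll q j) (by rw [ll_eq]; omega)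
    rw [hK]
    calc (1 / 2 : ℝ) ^ aa q j * (2 * (128 * 2 ^ ll q j * ((j : ℝ) + 1) ^ 3))
        = ((1 / 2 : ℝ) ^ aa q j * 2 ^ ll q j) * (256 * ((j : ℝ) + 1) ^ 3) := by ring
      _ ≤ (1 / 2 : ℝ) ^ ll q j * (256 * ((j : ℝ) + 1) ^ 3) := by gcongr
      _ = _ := by ring
  cases hT : isT q j
  · have h1 := GN_smul (vv q (j + 1)) (GN_X_le hq j true false false (Or.inl ⟨rfl, rfl, rfl⟩))
    refine (GN_congr (fun a ha => Fn_spec_F hT ha) h1).mono (le_trans ?_ hfin)
    calc ‖vv q (j + 1)‖ * K ≤ (1 / 2 : ℝ) ^ aa q j * K := by gcongr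
      _ ≤ (1 / 2 : ℝ) ^ aa q j * (2 * K) := by gcongr; linarith
  · have h1 := GN_smul (vv q (j + 1)) (GN_X_le hq j true false false (Or.inl ⟨rfl, rfl, rfl⟩))
    have h2 := GN_smul (vv q (j + 1) / 2)
      (GN_X_le hq j false true false (Or.inr ⟨hT, Or.inl ⟨rfl, rfl, rfl⟩⟩))
    have h3 := GN_smul (vv q (j + 1) / 2)
      (GN_X_le hq j false false true (Or.inr ⟨hT, Or.inr ⟨rfl, rfl, rfl⟩⟩))
    refine (GN_congr (fun a ha => Fn_spec_T hT ha) (GN_add (GN_add h1 h2) h3)).mono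
      (le_trans ?_ hfin)
    rw [norm_div, Complex.norm_ofNat]
    rw [← hK]
    have h4 : ‖vv q (j + 1)‖ * K ≤ (1 / 2 : ℝ) ^ aa q j * K := by gcongr
    linarith

lemma sk_nonneg (e : Bool) (l : ℕ) : 0 ≤ sk e l := by
  unfold sk
  split_ifs <;> positivity

lemma SN_X_T {q : ℕ} (hq : 6 ≤ q) (j : ℕ) (hT : isT q j = true) :
    SN (8 * 2 ^ j) (X q j true true true) (64 * 2 ^ (j - 3 * ll q j)) := by
  refine (SN_X hq j true true true).mono (le_of_eq ?_)
  have hr := rest_eq hq j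
  have hL := ll_le hq j
  have h1 : l1 q j = ll q j := by unfold l1; rw [if_pos hT]
  have h2 : l2 q j = ll q j := by unfold l2; rw [if_pos hT]
  rw [h1, h2] at hr
  rw [h1, h2]
  simp only [sk, if_true]
  have h3 : j - 3 * ll q j = ll q j + (ll q j + (ll q j + rest q j)) := by omega
  rw [h3, pow_add, pow_add, pow_add]
  ring

lemma SN_X_F {q : ℕ} (hq : 6 ≤ q) (j : ℕ) (hT : isT q j = false) :
    SN (8 * 2 ^ j) (X q j true true false) (32 * 2 ^ (j - 3 * ll q j)) ∧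
    SN (8 * 2 ^ j) (X q j true false true) (32 * 2 ^ (j - 3 * ll q j)) ∧
    SN (8 * 2 ^ j) (X q j true true true) (64 * 2 ^ (j - 3 * ll q j)) := by
  have hr := rest_eq hq j
  have hL := ll_le hq j
  have h1 : l1 q j = 0 := by unfold l1; rw [hT]; simp
  have h2 : l2 q j = 3 * ll q j := by unfold l2; rw [hT]; simp
  rw [h1, h2] at hr
  have h3 : j - 3 * ll q j = 3 * ll q j + (2 * (3 * ll q j) + rest q j) := by omega
  refine ⟨?_, ?_, ?_⟩
  · refine (SN_X hq j true true false).mono (le_of_eq ?_)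
    rw [h1, h2, h3]
    simp only [sk, if_true, Bool.false_eq_true, if_false]
    rw [pow_add, pow_add]
    ring
  · refine (SN_X hq j true false true).mono (le_of_eq ?_)
    rw [h1, h2, h3]
    simp only [sk, if_true, Bool.false_eq_true, if_false]
    rw [pow_add, pow_add]
    ring
  · refine (SN_X hq j true true true).mono ?_
    rw [h1, h2]
    simp only [sk, if_true]
    have h4 : (2 : ℝ) ^ (3 * ll q j + (3 * ll q j + rest q j)) ≤ 2 ^ (j - 3 * ll q j) :=
      pow_le_pow_right₀ (by norm_num) (by omega)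
    rw [pow_add, pow_add] at h4
    calc (2 : ℝ) * (2 * (2 * (2 * 2 ^ 0 * (2 * 2 ^ (3 * ll q j) * (2 * 2 ^ (3 * ll q j) *
          2 ^ rest q j)))))
        = 64 * (2 ^ (3 * ll q j) * (2 ^ (3 * ll q j) * 2 ^ rest q j)) := by ring
      _ ≤ 64 * 2 ^ (j - 3 * ll q j) := by linarith

lemma SN_spec {q : ℕ} (hq : 6 ≤ q) (j : ℕ) :
    SN (8 * 2 ^ j) (fun a => Gn q (P q j + 4 * 2 ^ MM q j + a))
      (256 * (1 / 2 : ℝ) ^ ll q j) := by
  have hL := ll_le hq j
  have ha := aa_le (q := q) j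
  have hlla := ll_eq q j
  have h5 := half_mul' (j - aa q j) (j - 3 * ll q j) (ll q j) (by omega)
  have h0 : (0 : ℝ) < (1 / 2 : ℝ) ^ ll q j := by positivity
  cases hT : isT q j
  · obtain ⟨h1, h2, h3⟩ := SN_X_F hq j hT
    refine (SN_congr (fun a ha => Gn_spec_F hT ha)
      (SN_add (SN_add (SN_smul _ h1) (SN_smul _ h2)) (SN_smul _ h3))).mono ?_
    have h4 : ‖bb q (j + 1)‖ = (1 / 2 : ℝ) ^ (j - aa q j) / 2 := by
      have := congrArg norm (bb_succ_F hT)
      rw [norm_mul, Complex.norm_ofNat, norm_bb] at this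
      linarith
    rw [norm_div, norm_neg, Complex.norm_ofNat, h4]
    nlinarith
  · refine (SN_congr (fun a ha => Gn_spec_T hT ha) (SN_smul _ (SN_X_T hq j hT))).mono ?_
    rw [norm_neg, bb_succ_T hT, norm_bb]
    nlinarith

/-! ### Orthogonality -/

lemma sum_eq_Ev (A : ℕ) (u : ℕ → ℂ) : ∑ a ∈ Finset.range A, u a = Ev A u 1 := by
  unfold Ev
  simp

lemma sum_bulk (q j : ℕ) :
    ∑ a ∈ Finset.range (4 * 2 ^ MM q j), Fn q (P q j + a) * Gn q (P q j + a) = 0 := by
  rw [sum_eq_Ev]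
  have h1 : ∀ a < 4 * 2 ^ MM q j, Fn q (P q j + a) * Gn q (P q j + a) =
      (vv q j * bb q j) * tens 2 one (tens 2 sb (fun t => sgn (rsb false (MM q j) t))) a := by
    intro a ha
    rw [Fn_bulk ha, Gn_bulk ha]
    unfold tens one
    rw [sb_mod a]
    have := sgn_sq (b0 a)
    linear_combination (vv q j * bb q j * (sb (a / 2 % 2) *
      sgn (rsb false (MM q j) (a / 2 / 2)))) * this
  rw [Ev_congr h1, Ev_smul]
  have h2 : 4 * 2 ^ MM q j = 2 * (2 * 2 ^ MM q j) := by ring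
  rw [h2, Ev_tens _ (by norm_num), Ev_tens _ (by norm_num), one_pow]
  have h3 := Ev_se_one
  simp only [se, if_true] at h3
  rw [h3]; ring

lemma X_mul (q j : ℕ) (e1 e2 e3 d1 d2 d3 : Bool) (a : ℕ) :
    X q j e1 e2 e3 a * X q j d1 d2 d3 a = X q j (xor e1 d1) (xor e2 d2) (xor e3 d3) a := by
  rw [X_eq, X_eq, X_eq]
  have h1 := sgn_sq (xor (b0 a) (r1 q j (a / 8)))
  have h2 := sgn_sq (xor (b1 a) (r2 q j (a / 8)))
  have h3 := sgn_sq (xor (b2 a) (r3 q j (a / 8)))
  have k1 : (if e1 then sgn (xor (b0 a) (r1 q j (a / 8))) else 1) *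
      (if d1 then sgn (xor (b0 a) (r1 q j (a / 8))) else 1) =
      (if xor e1 d1 then sgn (xor (b0 a) (r1 q j (a / 8))) else 1) := by
    cases e1 <;> cases d1 <;> simp [h1]
  have k2 : (if e2 then sgn (xor (b1 a) (r2 q j (a / 8))) else 1) *
      (if d2 then sgn (xor (b1 a) (r2 q j (a / 8))) else 1) =
      (if xor e2 d2 then sgn (xor (b1 a) (r2 q j (a / 8))) else 1) := by
    cases e2 <;> cases d2 <;> simp [h2]
  have k3 : (if e3 then sgn (xor (b2 a) (r3 q j (a / 8))) else 1) *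
      (if d3 then sgn (xor (b2 a) (r3 q j (a / 8))) else 1) =
      (if xor e3 d3 then sgn (xor (b2 a) (r3 q j (a / 8))) else 1) := by
    cases e3 <;> cases d3 <;> simp [h3]
  rw [← k1, ← k2, ← k3]
  ring

lemma sum_X {q : ℕ} (hq : 6 ≤ q) (j : ℕ) (e1 e2 e3 : Bool)
    (he : e1 = true ∨ e2 = true ∨ e3 = true) :
    ∑ a ∈ Finset.range (8 * 2 ^ j), X q j e1 e2 e3 a = 0 := by
  rw [sum_eq_Ev, Ev_X_one hq j e1 e2 e3 he]

lemma sum_spec {q : ℕ} (hq : 6 ≤ q) (j : ℕ) :
    ∑ a ∈ Finset.range (8 * 2 ^ j), Fn q (P q j + 4 * 2 ^ MM q j + a) *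
      Gn q (P q j + 4 * 2 ^ MM q j + a) = 0 := by
  cases hT : isT q j
  · have h1 : ∀ a ∈ Finset.range (8 * 2 ^ j), Fn q (P q j + 4 * 2 ^ MM q j + a) *
        Gn q (P q j + 4 * 2 ^ MM q j + a) =
        (vv q (j + 1) * (-bb q (j + 1) / 2)) * X q j false true false a +
        (vv q (j + 1) * (-bb q (j + 1) / 2)) * X q j false false true a +
        (vv q (j + 1) * (-bb q (j + 1))) * X q j false true true a := by
      intro a ha
      rw [Fn_spec_F hT (Finset.mem_range.1 ha), Gn_spec_F hT (Finset.mem_range.1 ha)]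
      have e1 := X_mul q j true false false true true false a
      have e2 := X_mul q j true false false true false true a
      have e3 := X_mul q j true false false true true true a
      simp only [Bool.xor_self, Bool.false_xor] at e1 e2 e3
      rw [← e1, ← e2, ← e3]
      ring
    rw [Finset.sum_congr rfl h1, Finset.sum_add_distrib, Finset.sum_add_distrib,
      ← Finset.mul_sum, ← Finset.mul_sum, ← Finset.mul_sum, sum_X hq j _ _ _ (by simp),
      sum_X hq j _ _ _ (by simp), sum_X hq j _ _ _ (by simp)]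
    ring
  · have h1 : ∀ a ∈ Finset.range (8 * 2 ^ j), Fn q (P q j + 4 * 2 ^ MM q j + a) *
        Gn q (P q j + 4 * 2 ^ MM q j + a) =
        (vv q (j + 1) * (-bb q (j + 1))) * X q j false true true a +
        (vv q (j + 1) / 2 * (-bb q (j + 1))) * X q j true false true a +
        (vv q (j + 1) / 2 * (-bb q (j + 1))) * X q j true true false a := by
      intro a ha
      rw [Fn_spec_T hT (Finset.mem_range.1 ha), Gn_spec_T hT (Finset.mem_range.1 ha)]
      have e1 := X_mul q j true false false true true true a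
      have e2 := X_mul q j false true false true true true a
      have e3 := X_mul q j false false true true true true a
      simp only [Bool.xor_self, Bool.false_xor] at e1 e2 e3
      rw [← e1, ← e2, ← e3]
      ring
    rw [Finset.sum_congr rfl h1, Finset.sum_add_distrib, Finset.sum_add_distrib,
      ← Finset.mul_sum, ← Finset.mul_sum, ← Finset.mul_sum, sum_X hq j _ _ _ (by simp),
      sum_X hq j _ _ _ (by simp), sum_X hq j _ _ _ (by simp)]
    ring

/-! ### Summability -/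

lemma summable_poly_floor (Q : ℕ) (hQ : 0 < Q) (C : ℝ) :
    Summable (fun j : ℕ => C * ((j : ℝ) + 1) ^ 3 * (1 / 2 : ℝ) ^ (j / Q)) := by
  set ρ : ℝ := (1 / 2 : ℝ) ^ (1 / (Q : ℝ)) with hρ
  have hQ' : (0 : ℝ) < Q := by exact_mod_cast hQ
  have hρ0 : 0 < ρ := by positivity
  have hρ1 : ρ < 1 := Real.rpow_lt_one (by norm_num) (by norm_num) (by positivity)
  have h1 : Summable (fun j : ℕ => (((j + 1 : ℕ) : ℝ)) ^ 3 * ρ ^ (j + 1)) := by
    have := summable_pow_mul_geometric_of_norm_lt_one 3 (r := ρ)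
      (by rw [Real.norm_eq_abs, abs_of_pos hρ0]; exact hρ1)
    exact (summable_nat_add_iff 1).2 this
  have h2 : Summable (fun j : ℕ => |C| * (2 / ρ) * ((((j + 1 : ℕ) : ℝ)) ^ 3 * ρ ^ (j + 1))) :=
    h1.mul_left _
  refine Summable.of_norm_bounded h2 fun j => ?_
  have h3 : (1 / 2 : ℝ) ^ (j / Q) ≤ 2 * ρ ^ j := by
    have h4 : ρ ^ j = (1 / 2 : ℝ) ^ ((j : ℝ) / Q) := by
      rw [hρ, ← Real.rpow_natCast, ← Real.rpow_mul (by norm_num)]
      congr 1; ring
    have h5 : (2 : ℝ) * ρ ^ j = (1 / 2 : ℝ) ^ ((j : ℝ) / Q - 1) := by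
      rw [h4, Real.rpow_sub_one (by norm_num)]
      ring
    rw [h5, ← Real.rpow_natCast]
    refine Real.rpow_le_rpow_of_exponent_ge (by norm_num) (by norm_num) ?_
    have h6 : (j : ℝ) < ((j / Q : ℕ) + 1 : ℝ) * Q := by
      have : j < (j / Q + 1) * Q := by
        have := Nat.lt_div_mul_add (a := j) hQ
        rw [Nat.add_mul, one_mul]; exact this
      exact_mod_cast this
    have h7 : (j : ℝ) / Q < (j / Q : ℕ) + 1 := by
      rw [div_lt_iff₀ hQ']; exact h6
    linarith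
  have h8 : (0 : ℝ) < (1 / 2 : ℝ) ^ (j / Q) := by positivity
  rw [Real.norm_eq_abs, abs_mul, abs_mul, abs_of_pos h8,
    abs_of_nonneg (show (0 : ℝ) ≤ ((j : ℝ) + 1) ^ 3 by positivity)]
  push_cast
  calc |C| * ((j : ℝ) + 1) ^ 3 * (1 / 2 : ℝ) ^ (j / Q)
      ≤ |C| * ((j : ℝ) + 1) ^ 3 * (2 * ρ ^ j) := by gcongr
    _ = |C| * (2 / ρ) * (((j : ℝ) + 1) ^ 3 * ρ ^ (j + 1)) := by
        rw [pow_succ ρ j]; field_simp

/-! ### The sequences on the integers -/

/-- coefficients of `f` -/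
def FZ (q : ℕ) (n : ℤ) : ℂ := if 0 ≤ n then Fn q n.toNat else 0
/-- coefficients of the functional -/
def GZ (q : ℕ) (n : ℤ) : ℂ := if 0 ≤ n then Gn q n.toNat else 0
/-- the pairing on natural numbers -/
def pn (q n : ℕ) : ℕ := enc q (link q (dec q n))
/-- the pairing -/
def pz (q : ℕ) (n : ℤ) : ℤ := if 0 ≤ n then (pn q n.toNat : ℤ) else n

lemma pn_pn {q : ℕ} (hq : 4 ≤ q) (n : ℕ) : pn q (pn q n) = n := by
  unfold pn
  rw [dec_enc (link_valid hq (valid_dec q n)), link_link hq (valid_dec q n), enc_dec]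

lemma Fn_pn {q : ℕ} (hq : 4 ≤ q) (n : ℕ) : Fn q (pn q n) = Fn q n := by
  unfold Fn pn
  rw [dec_enc (link_valid hq (valid_dec q n)), Fc_link]

lemma Gn_pn {q : ℕ} (hq : 4 ≤ q) (n : ℕ) : Gn q (pn q n) = - Gn q n := by
  unfold Gn pn
  rw [dec_enc (link_valid hq (valid_dec q n)), Gc_link]

lemma pz_pz {q : ℕ} (hq : 4 ≤ q) (n : ℤ) : pz q (pz q n) = n := by
  unfold pz
  by_cases h : 0 ≤ n
  · rw [if_pos h, if_pos (Int.natCast_nonneg _), Int.toNat_natCast, pn_pn hq, Int.toNat_of_nonneg h]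
  · rw [if_neg h, if_neg h]

lemma FZ_pz {q : ℕ} (hq : 4 ≤ q) (n : ℤ) : FZ q (pz q n) = FZ q n := by
  unfold pz FZ
  by_cases h : 0 ≤ n
  · rw [if_pos h, if_pos (Int.natCast_nonneg _), Int.toNat_natCast, Fn_pn hq, if_pos h]
  · rw [if_neg h]

lemma GZ_pz {q : ℕ} (hq : 4 ≤ q) (n : ℤ) : GZ q (pz q n) = - GZ q n := by
  unfold pz GZ
  by_cases h : 0 ≤ n
  · rw [if_pos h, if_pos (Int.natCast_nonneg _), Int.toNat_natCast, Gn_pn hq, if_pos h]
  · rw [if_neg h, if_neg h, neg_zero]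

/-! ### Distances -/

/-- level of a cell -/
def cl : Cell → ℕ
  | Cell.init _ _ => 0
  | Cell.bulk j _ _ _ => j
  | Cell.spec j _ _ _ _ => j

lemma dist_link {q : ℕ} (hq : 4 ≤ q) {c : Cell} (hc : Valid q c) :
    enc q c ≤ enc q (link q c) + 24 * 2 ^ cl c ∧ enc q (link q c) ≤ enc q c + 24 * 2 ^ cl c := by
  have hpos : ∀ k : ℕ, 0 < 2 ^ k := fun k => by positivity
  cases c with
  | init s p =>
    have t1 := toNat_le p
    have t2 := toNat_le s
    cases s
    · have t3 := toNat_le (xor true (rb q 0 0))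
      simp only [link, Bool.false_eq_true, if_false, enc, cl, P]
      omega
    · simp only [link, if_true, cl]
      omega
  | bulk j i s p =>
    have h1 := pow_le_MM hq j
    have hp1 := hpos j
    have hp2 := hpos (MM q j)
    have t1 := toNat_le p
    simp only [Valid] at hc
    cases s
    · simp only [link, Bool.false_eq_true, if_false, cl]
      split_ifs with h
      · have t2 := toNat_le (xor false (rb q j i))
        have t3 := toNat_le (xor true (rb q j (i + 2 ^ j)))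
        simp only [enc]
        omega
      · have t2 := toNat_le (xor false (rb q j i))
        have t3 := toNat_le (xor p (r1 q j (i + 2 ^ j - 2 ^ MM q j)))
        have t4 := toNat_le (xor (isT q j && p) (r2 q j (i + 2 ^ j - 2 ^ MM q j)))
        have t5 := toNat_le (xor (isT q j && p) (r3 q j (i + 2 ^ j - 2 ^ MM q j)))
        simp only [enc]
        omega
    · simp only [link, if_true, cl]
      split_ifs with h h'
      · have t2 := toNat_le (xor true (rb q j i))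
        have t3 := toNat_le (xor false (rb q j (i - 2 ^ j)))
        simp only [enc]
        omega
      · subst h'
        have t2 := toNat_le (xor true (rb q 0 i))
        have t3 := toNat_le false
        rw [pow_zero] at h
        simp only [enc, P]
        omega
      · obtain ⟨k, rfl⟩ : ∃ k, j = k + 1 := ⟨j - 1, by omega⟩
        have t2 := toNat_le (xor true (rb q (k + 1) i))
        have t3 := toNat_le (xor p (r1 q k (i / 2)))
        have t4 := toNat_le (xor (b0 i) (r2 q k (i / 2)))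
        have t5 := toNat_le (xor (!b0 i) (r3 q k (i / 2)))
        rw [pow_succ] at h
        simp only [Nat.add_sub_cancel, enc, P]
        rw [pow_succ]
        have := hpos k
        have := hpos (MM q k)
        omega
  | spec j t c1 c2 c3 =>
    have h1 := pow_le_MM hq j
    have hp1 := hpos j
    have hp2 := hpos (MM q j)
    simp only [Valid] at hc
    have t3 := toNat_le (xor c1 (r1 q j t))
    have t4 := toNat_le (xor c2 (r2 q j t))
    have t5 := toNat_le (xor c3 (r3 q j t))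
    have t6 := toNat_le (xor (!c1) (r1 q j t))
    have t7 := toNat_le (xor (!c2) (r2 q j t))
    have t8 := toNat_le (xor (!c3) (r3 q j t))
    have t9 := toNat_le c1
    have t10 := toNat_le (xor false (rb q j (t + 2 ^ MM q j - 2 ^ j)))
    have t11 := toNat_le c2
    have t12 := toNat_le (xor true (rb q (j + 1) (2 * t + c2.toNat)))
    simp only [link, cl]
    split_ifs with h2 h3 h4 h5
    · simp only [enc]; omega
    · simp only [enc]; omega
    · omega
    · simp only [enc]; omega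
    · simp only [enc, P]; omega

lemma P_le_enc {q : ℕ} {c : Cell} {k : ℕ} (hk : cl c = k + 1) : P q (k + 1) ≤ enc q c := by
  cases c with
  | init s p => simp [cl] at hk
  | bulk j i s p =>
    simp only [cl] at hk
    subst hk
    simp only [enc]; omega
  | spec j t c1 c2 c3 =>
    simp only [cl] at hk
    subst hk
    simp only [enc]; omega

lemma dist_pn {q : ℕ} (hq : 4 ≤ q) {α : ℝ} (hα : 0 ≤ α)
    (hαq : ∀ k : ℕ, (k : ℝ) ≤ α * MM q k) (n : ℕ) :
    |((n : ℝ)) - (pn q n : ℝ)| ≤ 48 * (1 + (n : ℝ)) ^ α := by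
  set c := dec q n with hc
  have hv : Valid q c := valid_dec q n
  have hn : enc q c = n := enc_dec q n
  obtain ⟨h1, h2⟩ := dist_link hq hv
  rw [hn] at h1 h2
  have hpn : pn q n = enc q (link q c) := rfl
  rw [← hpn] at h1 h2
  have h3 : |((n : ℝ)) - (pn q n : ℝ)| ≤ 24 * 2 ^ cl c := by
    have h1' : (n : ℝ) ≤ pn q n + 24 * 2 ^ cl c := by exact_mod_cast h1
    have h2' : (pn q n : ℝ) ≤ n + 24 * 2 ^ cl c := by exact_mod_cast h2
    rw [abs_le]
    constructor <;> linarith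
  refine h3.trans ?_
  have hbase : (1 : ℝ) ≤ 1 + n := by
    have : (0 : ℝ) ≤ n := Nat.cast_nonneg _
    linarith
  rcases Nat.eq_zero_or_pos (cl c) with h0 | h0
  · rw [h0, pow_zero, mul_one]
    have : (1 : ℝ) ≤ (1 + (n : ℝ)) ^ α := Real.one_le_rpow hbase hα
    linarith
  · obtain ⟨k, hk⟩ : ∃ k, cl c = k + 1 := ⟨cl c - 1, by omega⟩
    have h4 := P_le_enc (q := q) hk
    rw [hn, P] at h4
    have h5 : (2 : ℝ) ^ MM q k ≤ 1 + n := by
      have h6 : 2 ^ MM q k ≤ n := by omega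
      have h7 : ((2 ^ MM q k : ℕ) : ℝ) ≤ n := by exact_mod_cast h6
      push_cast at h7
      linarith
    have h8 : (2 : ℝ) ^ k ≤ (1 + (n : ℝ)) ^ α := by
      calc (2 : ℝ) ^ k = (2 : ℝ) ^ (k : ℝ) := (Real.rpow_natCast 2 k).symm
        _ ≤ (2 : ℝ) ^ (α * MM q k) :=
            Real.rpow_le_rpow_of_exponent_le (by norm_num) (hαq k)
        _ = ((2 : ℝ) ^ MM q k) ^ α := by
            rw [mul_comm, Real.rpow_mul (by norm_num), Real.rpow_natCast]
        _ ≤ (1 + (n : ℝ)) ^ α := Real.rpow_le_rpow (by positivity) h5 hα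
    rw [hk, pow_succ]
    linarith

lemma pz_dist {q : ℕ} (hq : 4 ≤ q) {α : ℝ} (hα : 0 ≤ α)
    (hαq : ∀ k : ℕ, (k : ℝ) ≤ α * MM q k) (n : ℤ) :
    |(n : ℝ) - (pz q n : ℝ)| ≤ 48 * (1 + |(n : ℝ)|) ^ α := by
  unfold pz
  by_cases h : 0 ≤ n
  · rw [if_pos h]
    have h1 : (n : ℝ) = (n.toNat : ℝ) := by
      have : (n.toNat : ℤ) = n := Int.toNat_of_nonneg h
      exact_mod_cast this.symm
    rw [h1, abs_of_nonneg (a := ((n.toNat : ℕ) : ℝ)) (Nat.cast_nonneg _)]
    exact dist_pn hq hα hαq n.toNat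
  · rw [if_neg h, sub_self, abs_zero]
    positivity

/-! ### Blocks -/

/-- end points of the blocks -/
def Qs (q : ℕ) : ℕ → ℕ
  | 0 => 0
  | j + 1 => P q j

lemma Qs_strictMono (q : ℕ) : StrictMono (Qs q) := by
  refine strictMono_nat_of_lt_succ fun n => ?_
  cases n with
  | zero => simp [Qs, P]
  | succ n => exact P_lt_succ q n

/-- the blocks -/
def Ib (q i : ℕ) : Finset ℤ := (Finset.Ico (Qs q i) (Qs q (i + 1))).map Nat.castEmbedding

lemma mem_Ib {q i : ℕ} {n : ℤ} : n ∈ Ib q i ↔ ∃ m : ℕ, Qs q i ≤ m ∧ m < Qs q (i + 1) ∧ (m : ℤ) = n := by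
  unfold Ib
  simp only [Finset.mem_map, Finset.mem_Ico, Nat.castEmbedding_apply, and_assoc]

lemma Ib_disjoint {q i j : ℕ} (h : i ≠ j) : Disjoint (Ib q i) (Ib q j) := by
  rw [Finset.disjoint_left]
  intro n hi hj
  obtain ⟨m, h1, h2, h3⟩ := mem_Ib.1 hi
  obtain ⟨m', h1', h2', h3'⟩ := mem_Ib.1 hj
  have : m = m' := by
    have : (m : ℤ) = m' := by rw [h3, h3']
    exact_mod_cast this
  subst this
  rcases Nat.lt_or_gt_of_ne h with hlt | hlt
  · have := (Qs_strictMono q).monotone (show i + 1 ≤ j by omega)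
    omega
  · have := (Qs_strictMono q).monotone (show j + 1 ≤ i by omega)
    omega

lemma exists_Ib (q : ℕ) (n : ℤ) (hn : 0 ≤ n) : ∃ i, n ∈ Ib q i := by
  obtain ⟨m, rfl⟩ := Int.eq_ofNat_of_zero_le hn
  by_cases h : m < 4
  · exact ⟨0, mem_Ib.2 ⟨m, by simp [Qs], by simpa [Qs, P] using h, rfl⟩⟩
  · obtain ⟨h1, h2⟩ := lev_spec (q := q) (show 4 ≤ m by omega)
    exact ⟨lev q m + 1, mem_Ib.2 ⟨m, h1, h2, rfl⟩⟩

lemma sum_Ib_succ {M : Type*} [AddCommMonoid M] (q j : ℕ) (g : ℤ → M) :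
    ∑ n ∈ Ib q (j + 1), g n =
      ∑ a ∈ Finset.range (4 * 2 ^ MM q j), g ((P q j : ℤ) + a) +
      ∑ a ∈ Finset.range (8 * 2 ^ j), g (((P q j + 4 * 2 ^ MM q j : ℕ) : ℤ) + a) := by
  unfold Ib
  rw [Finset.sum_map, Finset.sum_Ico_eq_sum_range]
  have h1 : Qs q (j + 1 + 1) - Qs q (j + 1) = 4 * 2 ^ MM q j + 8 * 2 ^ j := by
    simp only [Qs, P]; omega
  rw [h1, Finset.sum_range_add]
  congr 1
  refine Finset.sum_congr rfl fun a _ => ?_
  simp only [Nat.castEmbedding_apply, Qs]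
  congr 1
  push_cast
  ring

lemma FZ_cast (q m a : ℕ) : FZ q ((m : ℤ) + a) = Fn q (m + a) := by
  unfold FZ
  have : ((m : ℤ) + a) = ((m + a : ℕ) : ℤ) := by push_cast; rfl
  rw [this, if_pos (Int.natCast_nonneg _), Int.toNat_natCast]

lemma GZ_cast (q m a : ℕ) : GZ q ((m : ℤ) + a) = Gn q (m + a) := by
  unfold GZ
  have : ((m : ℤ) + a) = ((m + a : ℕ) : ℤ) := by push_cast; rfl
  rw [this, if_pos (Int.natCast_nonneg _), Int.toNat_natCast]

/-- bounds for the blocks of `f` -/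
def ab (q : ℕ) : ℕ → ℝ
  | 0 => ‖(∑ n ∈ Ib q 0, FZ q n • ex n : L1)‖
  | j + 1 => 264 * ((j : ℝ) + 1) ^ 3 * (1 / 2 : ℝ) ^ (j / (2 * q))

/-- bounds for the blocks of the functional -/
def bnd (q : ℕ) : ℕ → ℝ
  | 0 => ∑ n ∈ Ib q 0, ‖GZ q n‖
  | j + 1 => 264 * ((j : ℝ) + 1) ^ 3 * (1 / 2 : ℝ) ^ (j / (2 * q))

lemma ab_le {q : ℕ} (hq : 6 ≤ q) (i : ℕ) : ‖(∑ n ∈ Ib q i, FZ q n • ex n : L1)‖ ≤ ab q i := by
  cases i with
  | zero => exact le_rfl
  | succ j =>
    rw [sum_Ib_succ]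
    simp only [FZ_cast, ab]
    refine (norm_add_le _ _).trans ?_
    have h1 := norm_le_of_GN (by positivity) (GN_bulk q j) (P q j)
    have h2 := norm_le_of_GN (by positivity) (GN_spec hq j) ((P q j + 4 * 2 ^ MM q j : ℕ) : ℤ)
    refine (add_le_add h1 h2).trans ?_
    change 8 * ((j : ℝ) + 1) * (1 / 2 : ℝ) ^ (j / (2 * q)) +
      256 * ((j : ℝ) + 1) ^ 3 * (1 / 2 : ℝ) ^ (j / (2 * q)) ≤ _
    have h3 : (j : ℝ) + 1 ≤ ((j : ℝ) + 1) ^ 3 := by
      have : (0 : ℝ) ≤ j := Nat.cast_nonneg _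
      nlinarith [sq_nonneg ((j : ℝ)), mul_nonneg this (sq_nonneg (j : ℝ))]
    have h4 : (0 : ℝ) < (1 / 2 : ℝ) ^ (j / (2 * q)) := by positivity
    nlinarith

lemma bnd_le {q : ℕ} (hq : 6 ≤ q) (i : ℕ) (x : Circ) :
    ‖∑ n ∈ Ib q i, GZ q n * (fourier (-n) x : ℂ)‖ ≤ bnd q i := by
  cases i with
  | zero =>
    refine (norm_sum_le _ _).trans (le_of_eq ?_)
    unfold bnd
    exact Finset.sum_congr rfl fun n _ => by rw [norm_mul, fourier_norm_apply, mul_one]
  | succ j =>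
    rw [sum_Ib_succ q j (fun n => GZ q n * (fourier (-n) x : ℂ))]
    simp only [GZ_cast, bnd]
    refine (norm_add_le _ _).trans ?_
    have h1 := norm_le_of_SN (SN_bulk (show 4 ≤ q by omega) j) (P q j) x
    have h2 := norm_le_of_SN (SN_spec hq j) ((P q j + 4 * 2 ^ MM q j : ℕ) : ℤ) x
    refine (add_le_add h1 h2).trans ?_
    change 8 * (1 / 2 : ℝ) ^ (j / (2 * q)) + 256 * (1 / 2 : ℝ) ^ (j / (2 * q)) ≤ _
    have h3 : (1 : ℝ) ≤ ((j : ℝ) + 1) ^ 3 := by
      have : (0 : ℝ) ≤ j := Nat.cast_nonneg _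
      exact one_le_pow₀ (by linarith)
    have h4 : (0 : ℝ) < (1 / 2 : ℝ) ^ (j / (2 * q)) := by positivity
    nlinarith

/-- The counterexample for a given parameter `q`. -/
theorem not_synthesis_q {q : ℕ} (hq : 6 ≤ q) : ¬ HasSynthesis (orbit (pz q) (pz_pz (by omega))) := by
  have hQ : 0 < 2 * q := by omega
  refine not_synthesis_orbit (pz q) (pz_pz (by omega)) (FZ q) (GZ q) (FZ_pz (by omega))
    (GZ_pz (by omega)) (Ib q) (fun i j h => Ib_disjoint h) ?_ (ab q) (bnd q) ?_ ?_ (ab_le hq)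
    (bnd_le hq) ?_ ?_
  · intro n hn
    have hneg : ¬ 0 ≤ n := by
      intro h
      obtain ⟨i, hi⟩ := exists_Ib q n h
      exact hn i hi
    unfold FZ GZ
    rw [if_neg hneg, if_neg hneg]
    exact ⟨rfl, rfl⟩
  · exact (summable_nat_add_iff 1).1 (summable_poly_floor (2 * q) hQ 264)
  · exact (summable_nat_add_iff 1).1 (summable_poly_floor (2 * q) hQ 264)
  · have h1 : Ib q 0 = {0, 1, 2, 3} := by
      ext n
      rw [mem_Ib]
      simp only [Qs, P, Finset.mem_insert, Finset.mem_singleton]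
      constructor
      · rintro ⟨m, _, h2, rfl⟩
        omega
      · rintro (h | h | h | h) <;> subst h
        · exact ⟨0, by simp⟩
        · exact ⟨1, by simp⟩
        · exact ⟨2, by simp⟩
        · exact ⟨3, by simp⟩
    rw [h1]
    have hF : ∀ m : ℕ, m < 4 → FZ q (m : ℤ) * GZ q (m : ℤ) =
        Fc q (Cell.init (b1 m) (b0 m)) * Gc q (Cell.init (b1 m) (b0 m)) := by
      intro m hm
      unfold FZ GZ Fn Gn dec
      rw [if_pos (Int.natCast_nonneg _), if_pos (Int.natCast_nonneg _), Int.toNat_natCast,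
        if_pos hm]
    have e0 := hF 0 (by norm_num)
    have e1 := hF 1 (by norm_num)
    have e2 := hF 2 (by norm_num)
    have e3 := hF 3 (by norm_num)
    simp only [Nat.cast_ofNat, Nat.cast_zero, Nat.cast_one] at e0 e1 e2 e3
    rw [Finset.sum_insert (by decide), Finset.sum_insert (by decide),
      Finset.sum_insert (by decide), Finset.sum_singleton, e0, e1, e2, e3]
    simp [Fc, Gc, b0, b1, sgn]
  · intro i hi
    obtain ⟨j, rfl⟩ : ∃ j, i = j + 1 := ⟨i - 1, by omega⟩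
    rw [sum_Ib_succ q j (fun n => FZ q n * GZ q n)]
    simp only [FZ_cast, GZ_cast]
    rw [sum_bulk, sum_spec hq, add_zero]

/-- Relations with classes of at most two elements, at distance at most `48 (1 + min)^α`,
`α > 1/2`, that fail the synthesis property. -/
theorem no_synthesis_pairs (α : ℝ) (hα : 1 / 2 < α) : ∃ r : Setoid ℤ,
    (∀ m, {n | r m n}.encard ≤ 2) ∧
    (∀ m n, r m n → |(m : ℝ) - n| ≤ 48 * (1 + min |(m : ℝ)| |(n : ℝ)|) ^ α) ∧
    ¬ HasSynthesis r := by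
  obtain ⟨q₀, hq₀⟩ := exists_nat_gt (4 * α / (2 * α - 1))
  set q : ℕ := max q₀ 6 with hqd
  have hq6 : 6 ≤ q := le_max_right _ _
  have hq4 : 4 ≤ q := by omega
  have hq0 : 4 * α / (2 * α - 1) < q := by
    refine hq₀.trans_le ?_
    exact_mod_cast le_max_left q₀ 6
  have hα0 : 0 ≤ α := by linarith
  have hqpos : (0 : ℝ) < q := by
    have : (6 : ℝ) ≤ q := by exact_mod_cast hq6
    linarith
  have hαq : ∀ k : ℕ, (k : ℝ) ≤ α * MM q k := by
    intro k
    have h1 : 2 * aa q k ≤ k := by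
      have := two_aa_le hq4 k
      omega
    have h2 : (MM q k : ℝ) = 2 * (k - 2 * aa q k) := by
      unfold MM
      push_cast [Nat.cast_sub h1]
      ring
    have h3 : (aa q k : ℝ) ≤ k / q := by
      unfold aa
      exact Nat.cast_div_le
    rw [div_lt_iff₀ (by linarith)] at hq0
    rw [h2]
    have h4 : (k : ℝ) ≤ α * (2 * (k - 2 * (k / q))) := by
      have h5 : α * (2 * ((k : ℝ) - 2 * (k / q))) - k = k / q * ((2 * α - 1) * q - 4 * α) := by
        field_simp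
        ring
      have h6 : 0 ≤ (k : ℝ) / q * ((2 * α - 1) * q - 4 * α) := by
        refine mul_nonneg (by positivity) ?_
        nlinarith
      linarith
    refine h4.trans ?_
    gcongr
  refine ⟨orbit (pz q) (pz_pz hq4), ?_, ?_, not_synthesis_q hq6⟩
  · intro m
    have : {n | (orbit (pz q) (pz_pz hq4)) m n} ⊆ ({m, pz q m} : Set ℤ) := by
      rintro n (h | h)
      · left; exact h
      · right; exact h
    refine (Set.encard_le_encard this).trans ?_
    refine (Set.encard_insert_le _ _).trans ?_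
    rw [Set.encard_singleton]
    norm_num
  · rintro m n (h | h)
    · rw [h, sub_self, abs_zero]
      positivity
    · rcases le_total |(m : ℝ)| |(n : ℝ)| with hle | hle
      · rw [min_eq_left hle, h]
        exact pz_dist hq4 hα0 hαq m
      · rw [min_eq_right hle]
        have h1 := pz_dist hq4 hα0 hαq n
        have h2 : pz q n = m := by rw [h, pz_pz hq4]
        rw [h2, abs_sub_comm] at h1
        exact h1

end

end Pool.Agent.H87.Synth.Con
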